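import Mathlib

/-!
Traces in a cubic extension.
-/

set_option autoImplicit false

namespace Pool.Agent.Helper11K9.EC

variable {L K : Type} [Field L] [Field K] [Algebra L K] [FiniteDimensional L K] [CharZero L]

/-- If `X`, `Y`, `U Y - W X` are orthogonal to a subspace of dimension at least two of a cubic
extension, and `U`, `W` have trace zero, then `U Y = W X`. -/
theorem cubic (h3 : Module.finrank L K = 3) (H : Submodule L K) (hH : 2 ≤ Module.finrank L H)
    {U W X Y : K} (hU : Algebra.trace L K U = 0) (hW : Algebra.trace L K W = 0)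
    (hX : ∀ h ∈ H, Algebra.trace L K (h * X) = 0) (hY : ∀ h ∈ H, Algebra.trace L K (h * Y) = 0)
    (hJ : ∀ h ∈ H, Algebra.trace L K (h * (U * Y - W * X)) = 0) : U * Y - W * X = 0 := by
  classical
  obtain ⟨N, hN⟩ : ∃ N : Submodule L K, N = (Algebra.traceForm L K).orthogonal H := ⟨_, rfl⟩
  have hmem : ∀ z : K, (∀ h ∈ H, Algebra.trace L K (h * z) = 0) → z ∈ N := by
    intro z hz
    rw [hN, LinearMap.BilinForm.mem_orthogonal_iff]
    intro h hh
    exact hz h hh
  have h6 := LinearMap.BilinForm.finrank_orthogonal (traceForm_nondegenerate L K) H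
  rw [← hN, h3] at h6
  have h7 : Module.finrank L N ≤ 1 := by omega
  obtain ⟨κ, hκ⟩ := finrank_le_one_iff.1 h7
  obtain ⟨x, hx⟩ := hκ ⟨X, hmem X hX⟩
  obtain ⟨y, hy⟩ := hκ ⟨Y, hmem Y hY⟩
  obtain ⟨j, hj⟩ := hκ ⟨U * Y - W * X, hmem _ hJ⟩
  have hx' : x • (κ : K) = X := congrArg Subtype.val hx
  have hy' : y • (κ : K) = Y := congrArg Subtype.val hy
  have hj' : j • (κ : K) = U * Y - W * X := congrArg Subtype.val hj
  by_cases hκ0 : (κ : K) = 0
  · rw [← hj', hκ0, smul_zero]
  have h8 : algebraMap L K j = y • U - x • W := by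
    apply mul_right_cancel₀ hκ0
    rw [← Algebra.smul_def, hj', ← hx', ← hy']
    simp only [Algebra.smul_def]
    ring
  have h9 := congrArg (Algebra.trace L K) h8
  rw [Algebra.trace_algebraMap, map_sub, map_smul, map_smul, hU, hW, smul_zero, smul_zero,
    sub_zero, h3] at h9
  have h10 : j = 0 := by
    rcases smul_eq_zero.1 h9 with h | h
    · norm_num at h
    · exact h
  rw [← hj', h10, zero_smul]

end Pool.Agent.Helper11K9.EC
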