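import Pool.Agent.Helper11K9.EC.Form
import Pool.Agent.Helper11K9.EC.Alg
import Pool.Agent.Helper11K9.OD.Main

/-!
No maps of degree three from a product of two curves, of genera at least one and at least two, onto a
surface with `p_g = q = 0`.
-/

set_option autoImplicit false
set_option linter.overlappingInstances false
set_option linter.unusedSectionVars false

open FF Polynomial IntermediateField

namespace Pool.Agent.Helper11K9.EC

open Pool.Agent.W603.LV Pool.Agent.W602.GT Pool.Agent.Y172 Pool.Agent.Y184.NT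
  Pool.Agent.Helper11K9.PC Pool.Agent.Helper11K9.OD
open Pool.Agent.R882.Over (GenusZero)

theorem none {K : Type} [Field K] [Algebra ℂ K] (F : Fin 2 → IntermediateField ℂ K)
    [∀ i, IsFF ℂ (F i)] (hsup : ⨆ i, F i = ⊤) (hn : Algebra.trdeg ℂ K = (2 : ℕ))
    (hg0 : 1 ≤ Module.finrank ℂ (regularForms (F 0)))
    (hg1 : 2 ≤ Module.finrank ℂ (regularForms (F 1)))
    (L : IntermediateField ℂ K) [FiniteDimensional L K] (h3 : Module.finrank L K = 3)
    (hpg : GenusZero L 2) (hq : ∀ ω : Derivation ℂ L L →ₗ[L] L, RegForm 2 ω → ω = 0) :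
    False := by
  classical
  have hK0 : CharZero K := charZero_of_injective_algebraMap (algebraMap ℂ K).injective
  have hL0 : CharZero L := charZero_of_injective_algebraMap (algebraMap ℂ L).injective
  have hessK : Algebra.EssFiniteType ℂ K := ess_top F hsup
  have hessL : Algebra.EssFiniteType ℂ L := Pool.Agent.TH466.QG.ess_below (K := K)
  have hL : Algebra.trdeg ℂ L = (2 : ℕ) := Pool.Agent.Y184.NT.trdeg_below (K := K) hn
  obtain ⟨z, E, hz, hE⟩ := Pool.Agent.Y172.exists_crd (k := ℂ) (K := L) hL
  choose E' hE' using fun i => Pool.Agent.Y172.exists_lift (k := ℂ) (K := L) (L := K) hL (E i)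
  have hzK : IsTranscendenceBasis ℂ (fun j => algebraMap L K (z j)) := hz.algebraMap_comp
  have hE'd := Pool.Agent.Y172.lift_dual hE hE'
  choose x hx using fun i => IsFF.exists_transcendental (k := ℂ) (K := F i)
  obtain ⟨D, hDe⟩ : ∃ D : ∀ i, Derivation ℂ (F i) (F i), D = fun i => der ℂ (F i) := ⟨_, rfl⟩
  have hD : ∀ i, D i ≠ 0 := by
    intro i
    rw [hDe]
    exact der_ne
  have hxb : IsTranscendenceBasis ℂ fun i => algebraMap (F i) K (x i) :=
    Pool.Agent.W619.PQ.basis_of_iSup F hsup hn x hx
  -- a regular differential of the first curve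
  obtain ⟨f0, hf0⟩ : ∃ f0 : F 0, RegD (D 0) f0 := by
    have h1 : RR (D 0) (hD 0) ≠ ⊥ := by
      intro h
      have h1 := forms_le (hD 0)
      rw [h, finrank_bot] at h1
      omega
    obtain ⟨c, hc, hc0⟩ := (Submodule.ne_bot_iff _).1 h1
    exact ⟨c, hc0, (mem_RR.1 hc).resolve_left hc0⟩
  obtain ⟨f1, hf1⟩ : ∃ f1 : F 1, RegD (D 1) f1 := by
    have h1 : RR (D 1) (hD 1) ≠ ⊥ := by
      intro h
      have h1 := forms_le (hD 1)
      rw [h, finrank_bot] at h1
      omega
    obtain ⟨c, hc, hc0⟩ := (Submodule.ne_bot_iff _).1 h1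
    exact ⟨c, hc0, (mem_RR.1 hc).resolve_left hc0⟩
  obtain ⟨η, hη⟩ : ∃ η, η = cf (D 0) (x 0) f0 := ⟨_, rfl⟩
  obtain ⟨θ, hθ⟩ : ∃ θ, θ = cf (D 1) (x 1) 1 := ⟨_, rfl⟩
  have hηreg : ∀ Q : Place ℂ K, Reg1 Q η := fun Q => by
    rw [hη]
    exact cf_reg (hD 0) (hx 0) hf0 Q
  -- the product of the forms is not zero
  have hJ : wed η θ E' ≠ 0 := by
    obtain ⟨G, hG⟩ := exists_dual hxb
    have hG' : ∀ i j, G i (algebraMap (F j) K (x j)) = if i = j then 1 else 0 := by
      intro i j
      have := congrFun (congrFun hG i) j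
      rw [Matrix.of_apply, Matrix.one_apply] at this
      exact this
    have h1 := Pool.Agent.Y172.pluri_coord hzK hE'd (wed_pluri η θ) G
    have h2 : wed η θ G ≠ 0 := by
      unfold wed
      rw [hη, hθ, cf_apply, cf_apply, cf_apply, cf_apply, hG', hG', hG', hG', if_pos rfl,
        if_pos rfl, if_neg (by decide), if_neg (by decide), mul_one, mul_one, mul_zero, mul_zero,
        mul_zero, sub_zero]
      refine mul_ne_zero ?_ ?_
      · rw [_root_.map_ne_zero]
        exact div_ne_zero hf0.1 (der_ne_zero (hD 0) (hx 0))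
      · rw [_root_.map_ne_zero]
        exact div_ne_zero one_ne_zero (der_ne_zero (hD 1) (hx 1))
    intro h3
    rw [h3, mul_zero] at h1
    exact h2 h1
  -- the traces
  have hU : ∀ i, Algebra.trace L K (η (E' i)) = 0 := fun i =>
    one_form hL hz hE hE' hq hηreg i
  have hθreg : ∀ f, RegD (D 1) f → ∀ Q : Place ℂ K, Reg1 Q (cf (D 1) (x 1) f) := fun f hf Q =>
    cf_reg (hD 1) (hx 1) hf Q
  have hX : ∀ f, RegD (D 1) f → ∀ i, Algebra.trace L K ((f : K) * θ (E' i)) = 0 := by
    intro f hf i
    have h1 := one_form hL hz hE hE' hq (hθreg f hf) i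
    rw [cf_mul, ← hθ] at h1
    exact h1
  have hJt : ∀ f, RegD (D 1) f → Algebra.trace L K ((f : K) * wed η θ E') = 0 := by
    intro f hf
    have h1 := two_form hL hz hE hE' hpg hηreg (hθreg f hf)
    unfold wed at h1 ⊢
    rw [cf_mul (D 1) (x 1) f (E' 1), cf_mul (D 1) (x 1) f (E' 0), ← hθ] at h1
    rw [← h1]
    congr 1
    ring
  -- the span of the regular differentials
  obtain ⟨H, hH⟩ : ∃ H : Submodule L K,
      H = Submodule.span L {y | ∃ f, RegD (D 1) f ∧ (F 1).val f = y} := ⟨_, rfl⟩
  have hext : ∀ w : K, (∀ f, RegD (D 1) f → Algebra.trace L K ((f : K) * w) = 0) →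
      ∀ h ∈ H, Algebra.trace L K (h * w) = 0 := by
    intro w hw h hh
    rw [hH] at hh
    induction hh using Submodule.span_induction with
    | mem y hy =>
      obtain ⟨f, hf, rfl⟩ := hy
      exact hw f hf
    | zero => rw [zero_mul, map_zero]
    | add a b _ _ ha hb => rw [add_mul, map_add, ha, hb, add_zero]
    | smul r a _ ha => rw [smul_mul_assoc, map_smul, ha, smul_zero]
  by_cases hgen : IntermediateField.adjoin L (Set.range (F 1).val) = ⊤
  · -- the second curve generates
    have hdim : 2 ≤ Module.finrank L H := by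
      have h1 := span_clif (hD 1) (F 1).val hgen (by
        have := forms_le (hD 1)
        omega)
      rw [← hH, h3] at h1
      omega
    exact hJ (cubic h3 H hdim (hU 0) (hU 1) (hext _ fun f hf => hX f hf 0)
      (hext _ fun f hf => hX f hf 1) (hext _ hJt))
  · -- the second curve descends
    have hbot : IntermediateField.adjoin L (Set.range (F 1).val) = ⊥ := by
      have hp : Nat.Prime (Module.finrank L K) := by rw [h3]; exact Nat.prime_three
      have h1 := Module.finrank_mul_finrank L
        (IntermediateField.adjoin L (Set.range (F 1).val)) K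
      rcases (Nat.dvd_prime hp).1 (Dvd.intro _ h1) with h2 | h2
      · exact IntermediateField.finrank_eq_one_iff.1 h2
      · exfalso
        apply hgen
        apply IntermediateField.eq_of_le_of_finrank_eq le_top
        rw [h2, IntermediateField.finrank_top']
    have hmem : ∀ f : F 1, ∃ a : L, algebraMap L K a = (f : K) := by
      intro f
      have h1 : (f : K) ∈ IntermediateField.adjoin L (Set.range (F 1).val) :=
        IntermediateField.subset_adjoin _ _ ⟨f, rfl⟩
      rw [hbot, IntermediateField.mem_bot] at h1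
      exact h1
    have hzero : ∀ i, θ (E' i) = 0 := by
      intro i
      have h1 := hX f1 hf1 i
      obtain ⟨a, ha⟩ := hmem f1
      obtain ⟨b, hb⟩ := hmem (1 / D 1 (x 1))
      obtain ⟨c, hc⟩ := hmem (x 1)
      have h2 : θ (E' i) = algebraMap L K (b * E i c) := by
        rw [hθ, cf_apply, map_mul, hb, ← hE', hc]
        rfl
      rw [← ha, h2, ← map_mul, Algebra.trace_algebraMap, h3] at h1
      have ha0 : a ≠ 0 := by
        intro h
        rw [h, map_zero] at ha
        apply hf1.1
        exact Subtype.ext ha.symm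
      rcases smul_eq_zero.1 h1 with h | h
      · norm_num at h
      · rw [h2, (mul_eq_zero.1 h).resolve_left ha0, map_zero]
    apply hJ
    unfold wed
    rw [hzero, hzero, mul_zero, mul_zero, sub_zero]

end Pool.Agent.Helper11K9.EC
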