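import Pool.Agent.Helper11K9.EC.Tri2
import Pool.Agent.Helper11K9.EC.Main

/-!
Assembly: maps of degree three from products of two curves.
-/

set_option autoImplicit false
set_option linter.overlappingInstances false
set_option linter.unusedSectionVars false

open FF Polynomial IntermediateField

namespace Pool.Agent.Helper11K9.EC

open Pool.Agent.W603.LV Pool.Agent.W602.GT Pool.Agent.Helper11K9.OD
open Pool.Agent.R882.Over (GenusZero)

/-- a cubic curve in the form given by a point of order three -/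
theorem torsion_form {K : Type} [Field K] [Algebra ℂ K] {x y : K} {a b : ℂ}
    (hdisc : 4 * a ^ 3 + 27 * b ^ 2 ≠ 0)
    (h : y ^ 2 = x ^ 3 + algebraMap ℂ K a * x + algebraMap ℂ K b) :
    ∃ r α γ : ℂ, γ ≠ 0 ∧ y ^ 2 = (x - algebraMap ℂ K r) ^ 3 +
      (algebraMap ℂ K α * (x - algebraMap ℂ K r) + algebraMap ℂ K γ) ^ 2 := by
  obtain ⟨r, hr⟩ : ∃ r : ℂ, 3 * r ^ 4 + 6 * a * r ^ 2 + 12 * b * r - a ^ 2 = 0 := by
    obtain ⟨r, hr⟩ := IsAlgClosed.exists_root
      (C 3 * X ^ 4 + C (6 * a) * X ^ 2 + C (12 * b) * X - C (a ^ 2) : ℂ[X]) (by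
        have h1 : (C 3 * X ^ 4 + C (6 * a) * X ^ 2 + C (12 * b) * X - C (a ^ 2) : ℂ[X]).degree =
            4 := by
          compute_degree!
        rw [h1]
        decide)
    refine ⟨r, ?_⟩
    rw [IsRoot.def] at hr
    simpa using hr
  obtain ⟨α, hα⟩ := IsAlgClosed.exists_pow_nat_eq (3 * r) (n := 2) (by norm_num)
  obtain ⟨γ0, hγ0⟩ := IsAlgClosed.exists_pow_nat_eq (r ^ 3 + a * r + b) (n := 2) (by norm_num)
  have h1 : (2 * α * γ0) ^ 2 = (3 * r ^ 2 + a) ^ 2 := by
    have h2 : (2 * α * γ0) ^ 2 = 4 * α ^ 2 * γ0 ^ 2 := by ring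
    rw [h2, hα, hγ0]
    linear_combination hr
  obtain ⟨γ, hγ, hγ'⟩ : ∃ γ : ℂ, γ ^ 2 = r ^ 3 + a * r + b ∧ 2 * α * γ = 3 * r ^ 2 + a := by
    rcases sq_eq_sq_iff_eq_or_eq_neg.1 h1 with h2 | h2
    · exact ⟨γ0, hγ0, h2⟩
    · refine ⟨-γ0, by rw [neg_sq, hγ0], ?_⟩
      linear_combination -h2
  refine ⟨r, α, γ, ?_, ?_⟩
  · rintro rfl
    rw [mul_zero] at hγ'
    have ha : a = -3 * r ^ 2 := by linear_combination -hγ'
    have hb : b = 2 * r ^ 3 := by
      rw [ha] at hγ
      linear_combination -hγ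
    apply hdisc
    rw [ha, hb]
    ring
  · rw [h]
    have e1 := congrArg (algebraMap ℂ K) hα
    have e2 := congrArg (algebraMap ℂ K) hγ
    have e3 := congrArg (algebraMap ℂ K) hγ'
    simp only [map_add, map_mul, map_pow, map_ofNat] at e1 e2 e3
    linear_combination -(x - algebraMap ℂ K r) ^ 2 * e1 - e2 - (x - algebraMap ℂ K r) * e3

/-- `F` is the function field of an elliptic curve. -/
def IsEll (F : Type) [Field F] [Algebra ℂ F] : Prop :=
  ∃ a b : ℂ, 4 * a ^ 3 + 27 * b ^ 2 ≠ 0 ∧ ∃ x y : F, Transcendental ℂ x ∧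
    y ^ 2 = x ^ 3 + algebraMap ℂ F a * x + algebraMap ℂ F b ∧ adjoin ℂ {x, y} = ⊤

/-- `L` is the function field of the plane. -/
def IsPl (L : Type) [Field L] [Algebra ℂ L] : Prop :=
  ∃ s t : L, AlgebraicIndependent ℂ ![s, t] ∧ adjoin ℂ {s, t} = ⊤

theorem le_of_gen {K : Type} [Field K] [Algebra ℂ K] (F S : IntermediateField ℂ K) {x y : F}
    (h : adjoin ℂ {x, y} = ⊤) (hx : (x : K) ∈ S) (hy : (y : K) ∈ S) : F ≤ S := by
  have h1 : (⊤ : IntermediateField ℂ F) ≤ S.comap F.val := by
    rw [← h, adjoin_le_iff]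
    rintro z (rfl | rfl)
    · exact hx
    · exact hy
  intro z hz
  exact h1 (x := ⟨z, hz⟩) trivial

/-- **Two elliptic curves.** -/
theorem two_ell {K : Type} [Field K] [Algebra ℂ K] (F : Fin 2 → IntermediateField ℂ K)
    [∀ i, IsFF ℂ (F i)] (hsup : ⨆ i, F i = ⊤) (hn : Algebra.trdeg ℂ K = (2 : ℕ))
    (h : ∀ i, IsEll (F i)) : ∃ L : IntermediateField ℂ K, IsPl L ∧ Module.finrank L K = 3 := by
  classical
  choose a b hab x y hx hy hxy using h
  choose r α γ hγ hr using fun i => torsion_form (hab i) (hy i)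
  obtain ⟨z, hz⟩ : ∃ z : ∀ i, F i, z = fun i => x i - algebraMap ℂ (F i) (r i) := ⟨_, rfl⟩
  have hzt : ∀ i, Transcendental ℂ (z i) := by
    intro i h1
    apply hx i
    have h2 : x i = z i + algebraMap ℂ (F i) (r i) := by rw [hz]; ring
    rw [h2]
    exact h1.add (isAlgebraic_algebraMap _)
  have hb := Pool.Agent.W619.PQ.basis_of_iSup F hsup hn z hzt
  have e0 : (fun i => (z i : K)) = ![(z 0 : K), (z 1 : K)] := by
    funext i
    fin_cases i <;> rfl
  have hb' : IsTranscendenceBasis ℂ ![(z 0 : K), (z 1 : K)] := e0 ▸ hb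
  have hc : ∀ i (c : ℂ), ((algebraMap ℂ (F i) c : F i) : K) = algebraMap ℂ K c := fun i c => rfl
  have heq : ∀ i, (y i : K) ^ 2 = (z i : K) ^ 3 +
      (algebraMap ℂ K (α i) * (z i : K) + algebraMap ℂ K (γ i)) ^ 2 := by
    intro i
    have h1 := congrArg (fun w : F i => (w : K)) (hr i)
    rw [hz]
    exact h1
  obtain ⟨S, hS⟩ : ∃ S : IntermediateField ℂ K, S = adjoin ℂ {(z 0 : K), (y 0 : K), (z 1 : K),
    (y 1 : K)} := ⟨_, rfl⟩
  have hsub : ({(z 0 : K), (y 0 : K), (z 1 : K), (y 1 : K)} : Set K) ⊆ S := by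
    rw [hS]
    exact subset_adjoin _ _
  have hx' : ∀ i, (x i : K) = (z i : K) + algebraMap ℂ K (r i) := by
    intro i
    rw [hz]
    change (x i : K) = ((x i : K) - algebraMap ℂ K (r i)) + algebraMap ℂ K (r i)
    ring
  have hgen : adjoin ℂ {(z 0 : K), (y 0 : K), (z 1 : K), (y 1 : K)} = ⊤ := by
    rw [← hS, eq_top_iff, ← hsup]
    refine iSup_le fun i => ?_
    refine le_of_gen (F i) S (hxy i) ?_ ?_
    · rw [hx']
      refine add_mem (hsub ?_) (S.algebraMap_mem _)
      fin_cases i <;> simp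
    · refine hsub ?_
      fin_cases i <;> simp
  obtain ⟨s, t, hst, hfr⟩ := tri (hγ 0) (hγ 1) (heq 0) (heq 1) hb' hgen
  refine ⟨adjoin ℂ {s, t}, ?_, hfr⟩
  have hs : s ∈ adjoin ℂ ({s, t} : Set K) := subset_adjoin _ _ (by simp)
  have ht : t ∈ adjoin ℂ ({s, t} : Set K) := subset_adjoin _ _ (by simp)
  refine ⟨⟨s, hs⟩, ⟨t, ht⟩, ?_, ?_⟩
  · refine AlgebraicIndependent.of_comp (adjoin ℂ ({s, t} : Set K)).val ?_
    convert hst using 1
    ext i
    fin_cases i <;> rfl
  · apply IntermediateField.map_injective (adjoin ℂ ({s, t} : Set K)).val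
    rw [IntermediateField.adjoin_map, ← AlgHom.coe_toRingHom, ← AlgHom.fieldRange_eq_map,
      IntermediateField.fieldRange_val]
    congr 1
    rw [Set.image_pair]
    rfl

/-- **A ruled surface has geometric genus zero.** -/
theorem ruled {M L : Type} [Field M] [Field L] [Algebra ℂ M] [Algebra ℂ L] [Algebra M L]
    [IsScalarTower ℂ M L] [IsFF ℂ M] {t : M} (ht : Transcendental ℂ t) {s : L}
    (hsM : Transcendental M s) (hgenM : M⟮s⟯ = ⊤)
    (hst : IsTranscendenceBasis ℂ ![s, algebraMap M L t]) : GenusZero L 2 := by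
  classical
  intro ω hω hreg G
  have hMc : CharZero M := charZero_of_injective_algebraMap (algebraMap ℂ M).injective
  have hFF : IsFF M L := by
    refine IsFF.of_finite hsM ?_
    rw [hgenM]
    exact Module.Finite.of_surjective (Algebra.linearMap (⊤ : IntermediateField M L) L)
      fun z => ⟨⟨z, trivial⟩, rfl⟩
  have hdiv : ∀ P : Place M L, Divisorial 2 (res ℂ P) := by
    intro P
    refine ⟨fun _ => algebraMap M L t, fun F hF => ?_⟩
    have h1 : AlgebraicIndependent ℂ (fun _ : Fin (2 - 1) => t) := by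
      have : Unique (Fin (2 - 1)) := inferInstanceAs (Unique (Fin 1))
      exact algebraicIndependent_unique_type_iff.2 ht
    have h2 : MvPolynomial.aeval (fun _ : Fin (2 - 1) => t) F ≠ 0 := by
      intro h3
      exact hF (h1 (by rw [h3, map_zero]))
    have h3 : MvPolynomial.aeval (fun _ : Fin (2 - 1) => algebraMap M L t) F =
        algebraMap M L (MvPolynomial.aeval (fun _ : Fin (2 - 1) => t) F) := by
      rw [← MvPolynomial.aeval_algebraMap_apply]
      rfl
    rw [h3]
    exact ⟨(_root_.map_ne_zero _).2 h2, P.ord_const h2⟩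
  obtain ⟨E, hE⟩ := exists_dual hst
  have hE' : ∀ i j, E i (![s, algebraMap M L t] j) = if i = j then 1 else 0 := by
    intro i j
    have := congrFun (congrFun hE i) j
    rw [Matrix.of_apply, Matrix.one_apply] at this
    exact this
  have h00 : E 0 s = 1 := by simpa using hE' 0 0
  have h01 : E 0 (algebraMap M L t) = 0 := by simpa using hE' 0 1
  have h10 : E 1 s = 0 := by simpa using hE' 1 0
  have h11 : E 1 (algebraMap M L t) = 1 := by simpa using hE' 1 1
  have hM0 : ∀ m : M, E 0 (algebraMap M L m) = 0 := by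
    intro m
    obtain ⟨q, -, hq⟩ := Pool.Agent.W619.PQ.ratio' (K := L) ht m
    rw [hq, h01, mul_zero]
  have hM1 : ∀ m : M, ∃ m' : M, E 1 (algebraMap M L m) = algebraMap M L m' := by
    intro m
    obtain ⟨q, -, hq⟩ := Pool.Agent.W619.PQ.ratio' (K := L) ht m
    exact ⟨q, by rw [hq, h11, mul_one]⟩
  have hs0 : s ≠ 0 := by
    rintro rfl
    exact hsM isAlgebraic_zero
  have h1 : ω E = 0 := by
    refine line hsM (fun P hP => ?_) fun P hP => ?_
    · refine hreg (res ℂ P) (hdiv P) E fun i => ?_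
      fin_cases i
      · exact fun f hf => der_reg hgenM (fun m => ⟨0, by
          change E 0 _ = _
          rw [hM0, map_zero]⟩) ⟨1, by
          change E 0 _ = _
          rw [h00, map_one]⟩ hP hf
      · exact fun f hf => der_reg hgenM hM1 ⟨0, by
          rw [h10, map_zero]⟩ hP hf
    · have hgen' : M⟮s⁻¹⟯ = ⊤ := by rw [adjoin_inv, hgenM]
      have h2 : P.Reg (ω ![(s ^ 2) • E 0, E 1]) := by
        refine hreg (res ℂ P) (hdiv P) _ fun i => ?_
        fin_cases i
        · exact fun f hf => der_reg hgen' (D := (s ^ 2) • E 0) (fun m => ⟨0, by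
            rw [Derivation.smul_apply, hM0, smul_zero, map_zero]⟩) ⟨-1, by
            rw [Derivation.smul_apply, Derivation.leibniz_inv, h00, map_neg, map_one, smul_eq_mul,
              smul_eq_mul, mul_one, mul_neg]
            congr 1
            rw [← mul_pow, mul_inv_cancel₀ hs0, one_pow]⟩ hP hf
        · exact fun f hf => der_reg hgen' hM1 ⟨0, by
            rw [Derivation.leibniz_inv, h10, smul_zero, map_zero]⟩ hP hf
      have h3 := Pool.Agent.Y172.pluri_coord hst hE' hω ![(s ^ 2) • E 0, E 1]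
      have h4 : (Matrix.of fun i j => (![(s ^ 2) • E 0, E 1] : Fin 2 → Derivation ℂ L L) i
          (![s, algebraMap M L t] j) : Matrix (Fin 2) (Fin 2) L).det = s ^ 2 := by
        rw [Matrix.det_fin_two]
        simp only [Matrix.of_apply, Matrix.cons_val_zero, Matrix.cons_val_one]
        rw [h10, h11, Derivation.smul_apply, h00, smul_eq_mul]
        ring
      rw [h3, h4, pow_one] at h2
      exact h2
  rw [Pool.Agent.Y172.pluri_coord hst hE' hω G, h1, mul_zero]

/-- the plane -/
theorem plane {L : Type} [Field L] [Algebra ℂ L] (h : IsPl L) :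
    GenusZero L 2 ∧ ∀ ω : Derivation ℂ L L →ₗ[L] L, RegForm 2 ω → ω = 0 := by
  classical
  obtain ⟨s, t, hst, hgen⟩ := h
  have e : Set.range ![s, t] = {s, t} := by
    rw [Matrix.range_cons, Matrix.range_cons, Matrix.range_empty, Set.union_empty,
      Set.singleton_union]
  have hb : IsTranscendenceBasis ℂ ![s, t] := by
    have h1 : Algebra.IsAlgebraic (Algebra.adjoin ℂ (Set.range ![s, t])) L := by
      rw [e]
      refine Pool.Agent.W619.PQ.alg_adjoin fun z => ?_
      have h2 : z ∈ adjoin ℂ ({s, t} : Set L) := by rw [hgen]; trivial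
      exact isAlgebraic_algebraMap (⟨z, h2⟩ : adjoin ℂ ({s, t} : Set L))
    exact (isTranscendenceBasis_iff_algebraicIndependent_isAlgebraic).2 ⟨hst, h1⟩
  refine ⟨?_, fun ω hω => rational hb hgen hω⟩
  obtain ⟨M, hM⟩ : ∃ M : IntermediateField ℂ L, M = ℂ⟮t⟯ := ⟨_, rfl⟩
  have htM : t ∈ M := by
    rw [hM]
    exact mem_adjoin_simple_self ℂ t
  have hgenM : M⟮s⟯ = ⊤ := by
    apply IntermediateField.restrictScalars_injective ℂ
    rw [IntermediateField.restrictScalars_top, eq_top_iff, ← hgen, adjoin_le_iff]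
    rintro x (rfl | rfl)
    · exact mem_adjoin_simple_self M x
    · exact (M⟮s⟯).algebraMap_mem (⟨x, htM⟩ : M)
  have htt : Transcendental ℂ t := hst.transcendental 1
  have hsM : Transcendental M s := by
    have h2 : AlgebraicIndependent ℂ ![t, s] := by
      have h3 := hst.comp (Equiv.swap (0 : Fin 2) 1) (Equiv.injective _)
      convert h3 using 1
      ext i
      fin_cases i <;> simp
    have h3 : Transcendental (Algebra.adjoin ℂ {t}) s := by
      have h4 := h2.transcendental_adjoin (s := {0}) (i := 1) (by simp)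
      have e : (![t, s] '' {0}) = ({t} : Set L) := by
        rw [Set.image_singleton]
        rfl
      rw [e] at h4
      exact h4
    open scoped algebraAdjoinAdjoin in
    rw [hM]
    intro h
    exact h3 ((IsFractionRing.isAlgebraic_iff (Algebra.adjoin ℂ {t}) ℂ⟮t⟯ L).2 h)
  have htt' : Transcendental ℂ (⟨t, htM⟩ : M) := by
    intro h
    exact htt (h.algHom M.val)
  have hFF : IsFF ℂ M := by
    refine IsFF.of_finite htt' ?_
    have h1 : (ℂ⟮(⟨t, htM⟩ : M)⟯ : IntermediateField ℂ M) = ⊤ := by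
      apply IntermediateField.map_injective M.val
      rw [IntermediateField.adjoin_map, Set.image_singleton, ← AlgHom.fieldRange_eq_map,
        IntermediateField.fieldRange_val]
      exact hM.symm
    rw [h1]
    exact Module.Finite.of_surjective (Algebra.linearMap (⊤ : IntermediateField ℂ M) M)
      fun z => ⟨⟨z, trivial⟩, rfl⟩
  exact ruled (M := M) htt' hsM hgenM hb

end Pool.Agent.Helper11K9.EC
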