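import Pool.Agent.Helper11K9.EC.Rat
import Pool.Agent.Helper11K9.PC.Main

/-!
Traces of differential forms on surfaces, and the forms which come from curves.
-/

set_option autoImplicit false
set_option linter.overlappingInstances false
set_option linter.unusedSectionVars false

open FF Polynomial IntermediateField

namespace Pool.Agent.Helper11K9.EC

open Pool.Agent.W603.LV Pool.Agent.W602.GT Pool.Agent.Y172 Pool.Agent.Y184.NT
  Pool.Agent.Helper11K9.PC
open Pool.Agent.W619.PQ (extForm)
open Pool.Agent.R882.Over (GenusZero)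

section

variable {K : Type} [Field K] [Algebra ℂ K]

/-- the exterior product of two linear forms on vector fields -/
def wed (η θ : Derivation ℂ K K →ₗ[K] K) (D : Fin 2 → Derivation ℂ K K) : K :=
  η (D 0) * θ (D 1) - η (D 1) * θ (D 0)

theorem wed_pluri (η θ : Derivation ℂ K K →ₗ[K] K) : IsPluri 1 (wed η θ) := by
  intro A D
  unfold wed
  simp only [Fin.sum_univ_two, map_add, map_smul, smul_eq_mul, Matrix.det_fin_two, pow_one]
  ring

/-- the differential of a function -/
def dif (g : K) : Derivation ℂ K K →ₗ[K] K where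
  toFun := fun δ => δ g
  map_add' := fun _ _ => rfl
  map_smul' := fun _ _ => rfl

/-- regularity of a linear form at a place -/
def Reg1 (Q : Place ℂ K) (η : Derivation ℂ K K →ₗ[K] K) : Prop :=
  ∀ δ : Derivation ℂ K K, DerReg Q δ → Q.Reg (η δ)

theorem dif_reg {Q : Place ℂ K} {g : K} (hg : Q.Reg g) : Reg1 Q (dif g) := fun _ hδ => hδ g hg

theorem wed_reg {Q : Place ℂ K} {η θ : Derivation ℂ K K →ₗ[K] K} (hη : Reg1 Q η)
    (hθ : Reg1 Q θ) : RegAt Q (wed η θ) := by
  intro D hD
  unfold wed
  rw [sub_eq_add_neg]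
  exact Q.reg_add (Q.reg_mul (hη _ (hD 0)) (hθ _ (hD 1)))
    (Q.reg_neg (Q.reg_mul (hη _ (hD 1)) (hθ _ (hD 0))))

/-- the form with the value `f` on `D` on the curve `F` -/
noncomputable def cf {F : IntermediateField ℂ K} (D : Derivation ℂ F F) (x f : F) :
    Derivation ℂ K K →ₗ[K] K :=
  (algebraMap F K (f / D x)) • dif (algebraMap F K x)

theorem cf_apply {F : IntermediateField ℂ K} (D : Derivation ℂ F F) (x f : F)
    (δ : Derivation ℂ K K) : cf D x f δ = algebraMap F K (f / D x) * δ (algebraMap F K x) := rfl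

theorem cf_mul {F : IntermediateField ℂ K} (D : Derivation ℂ F F) (x f : F)
    (δ : Derivation ℂ K K) : cf D x f δ = (f : K) * cf D x 1 δ := by
  rw [cf_apply, cf_apply, ← mul_assoc]
  congr 1
  have h2 : (f : K) = algebraMap F K f := rfl
  rw [h2, ← map_mul]
  congr 1
  ring

/-- regular differentials of curves give regular forms -/
theorem cf_reg {F : IntermediateField ℂ K} [IsFF ℂ F] {D : Derivation ℂ F F} (hD : D ≠ 0)
    {x : F} (hx : Transcendental ℂ x) {f : F} (hf : RegD D f) (Q : Place ℂ K) :
    Reg1 Q (cf D x f) := by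
  intro δ hδ
  have hdiv : Divisorial 1 Q := by
    have : IsEmpty (Fin (1 - 1)) := inferInstanceAs (IsEmpty (Fin 0))
    refine ⟨Fin.elim0, fun p hp => ?_⟩
    have h3 : p = MvPolynomial.C (MvPolynomial.coeff 0 p) := MvPolynomial.eq_C_of_isEmpty p
    have h4 : MvPolynomial.coeff 0 p ≠ 0 := by
      intro h5
      rw [h5, map_zero] at h3
      exact hp h3
    rw [h3, MvPolynomial.aeval_C]
    exact ⟨(_root_.map_ne_zero _).2 h4, Q.ord_const h4⟩
  have h1 := ext_reg (F := fun _ : Fin 1 => F) (D := fun _ => D) (x := fun _ => x)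
    (f := fun _ => f) (fun _ => hD) (fun _ => hx) (fun _ => hf) Q hdiv (fun _ => δ) (fun _ => hδ)
  unfold extForm at h1
  rw [Finset.prod_eq_single_of_mem (0 : Fin 1) (Finset.mem_univ _) (fun b _ hb => by
    exact absurd (Subsingleton.elim b 0) hb), Matrix.det_unique, Matrix.of_apply, pow_one,
    pow_one] at h1
  exact h1

end

section

variable {L K : Type} [Field L] [Field K] [Algebra ℂ L] [Algebra ℂ K] [Algebra L K]
  [IsScalarTower ℂ L K] [FiniteDimensional L K] [Algebra.EssFiniteType ℂ L]
  [Algebra.EssFiniteType ℂ K]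

/-- **Traces of regular `2`-forms** to a surface with `p_g = 0`. -/
theorem two_form (hn : Algebra.trdeg ℂ L = (2 : ℕ)) {y : Fin 2 → L}
    {E : Fin 2 → Derivation ℂ L L}
    (hy : IsTranscendenceBasis ℂ y) (hE : ∀ i j, E i (y j) = if i = j then 1 else 0)
    {E' : Fin 2 → Derivation ℂ K K}
    (hE' : ∀ i f, E' i (algebraMap L K f) = algebraMap L K (E i f)) (hpg : GenusZero L 2)
    {η θ : Derivation ℂ K K →ₗ[K] K} (hη : ∀ Q : Place ℂ K, Reg1 Q η)
    (hθ : ∀ Q : Place ℂ K, Reg1 Q θ) : Algebra.trace L K (wed η θ E') = 0 := by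
  have h1 := hpg (trForm y (Algebra.trace L K (wed η θ E'))) (trForm_pluri _ _)
    (fun P hP => Pool.Agent.R882.LT.trForm_regAt hn hy hE hE' _ (wed_pluri η θ) P hP
      fun Q e _ => wed_reg (hη Q) (hθ Q)) E
  unfold trForm at h1
  have h2 : (Matrix.of fun i j => E i (y j) : Matrix (Fin 2) (Fin 2) L) = 1 := by
    ext i j
    rw [Matrix.of_apply, hE, Matrix.one_apply]
  rw [h2, Matrix.det_one, one_mul] at h1
  exact h1

/-- **Traces of regular `1`-forms** to a surface with `q = 0`. -/
theorem one_form (hn : Algebra.trdeg ℂ L = (2 : ℕ)) {y : Fin 2 → L}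
    {E : Fin 2 → Derivation ℂ L L}
    (hy : IsTranscendenceBasis ℂ y) (hE : ∀ i j, E i (y j) = if i = j then 1 else 0)
    {E' : Fin 2 → Derivation ℂ K K}
    (hE' : ∀ i f, E' i (algebraMap L K f) = algebraMap L K (E i f))
    (hq : ∀ ω : Derivation ℂ L L →ₗ[L] L, RegForm 2 ω → ω = 0)
    {η : Derivation ℂ K K →ₗ[K] K} (hη : ∀ Q : Place ℂ K, Reg1 Q η) (i : Fin 2) :
    Algebra.trace L K (η (E' i)) = 0 := by
  classical
  obtain ⟨ω, hω⟩ : ∃ ω : Derivation ℂ L L →ₗ[L] L,
      ω = ∑ j, (Algebra.trace L K (η (E' j))) • dif (y j) := ⟨_, rfl⟩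
  have hval : ∀ δ, ω δ = ∑ j, δ (y j) * Algebra.trace L K (η (E' j)) := by
    intro δ
    rw [hω, LinearMap.sum_apply]
    refine Finset.sum_congr rfl fun j _ => ?_
    rw [LinearMap.smul_apply, smul_eq_mul, mul_comm]
    rfl
  have hreg : RegForm 2 ω := by
    intro P hP δ hδ
    obtain ⟨yP, EP, i0, hl⟩ := exists_loc hn hP
    choose EP' hEP' using fun i => exists_lift (L := K) hn (EP i)
    -- the traces in the local coordinates
    have h1 : ∀ g : L, P.Reg g → P.Reg (Algebra.trace L K
        (wed η (dif (algebraMap L K g)) EP')) := by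
      intro g hg
      have h2 := Pool.Agent.R882.LT.trForm_regAt hn hy hE hE' _
        (wed_pluri η (dif (algebraMap L K g))) P hP
        (fun Q e hQ => wed_reg (hη Q) (dif_reg (by
          rcases hg with hg | hg
          · left
            rw [hg, map_zero]
          · right
            rw [hQ.2]
            exact mul_nonneg (by positivity) hg))) EP hl.pres
      rw [Pool.Agent.R882.LT.trForm_val hn hy hE hE' hl.bas hl.dual hEP'
        (wed_pluri η (dif (algebraMap L K g)))] at h2
      have h3 : (Matrix.of fun i j => EP i (yP j) : Matrix (Fin 2) (Fin 2) L) = 1 := by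
        ext i j
        rw [Matrix.of_apply, hl.dual, Matrix.one_apply]
      rw [h3, Matrix.det_one, one_mul] at h2
      exact h2
    have hd : ∀ i j, EP' i (algebraMap L K (yP j)) = if i = j then 1 else 0 :=
      lift_dual hl.dual hEP'
    have h2 : ∀ j, P.Reg (Algebra.trace L K (η (EP' j))) := by
      intro j
      fin_cases j
      · have h3 := h1 (yP 1) (hl.reg 1)
        unfold wed at h3
        have h4 : dif (algebraMap L K (yP 1)) (EP' 1) = 1 := by
          have := hd 1 1
          rwa [if_pos rfl] at this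
        have h5 : dif (algebraMap L K (yP 1)) (EP' 0) = 0 := by
          have := hd 0 1
          rwa [if_neg (by decide)] at this
        rw [h4, h5, mul_one, mul_zero, sub_zero] at h3
        exact h3
      · have h3 := h1 (yP 0) (hl.reg 0)
        unfold wed at h3
        have h4 : dif (algebraMap L K (yP 0)) (EP' 1) = 0 := by
          have := hd 1 0
          rwa [if_neg (by decide)] at this
        have h5 : dif (algebraMap L K (yP 0)) (EP' 0) = 1 := by
          have := hd 0 0
          rwa [if_pos rfl] at this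
        rw [h4, h5, mul_one, mul_zero, zero_sub, map_neg] at h3
        have h6 := P.reg_neg h3
        rw [neg_neg] at h6
        exact h6
    -- the value on `δ`
    have h3 : ω δ = ∑ j, δ (yP j) * Algebra.trace L K (η (EP' j)) := by
      rw [hval]
      have h4 : ∑ j, (algebraMap L K (δ (y j))) • E' j =
          ∑ j, (algebraMap L K (δ (yP j))) • EP' j := by
        have h5 := Pool.Agent.W73.PG.PULL.expand (fun i => algebraMap L K (y i))
          (hy.algebraMap_comp (A := K)) E' (lift_dual hE hE')
          (∑ j, (algebraMap L K (δ (yP j))) • EP' j)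
        rw [← h5]
        refine Finset.sum_congr rfl fun j _ => ?_
        congr 1
        have h6 := Pool.Agent.W73.PG.PULL.expand yP hl.bas EP hl.dual δ
        conv_lhs => rw [← h6]
        rw [Pool.Agent.Y172.sum_smul_apply, Pool.Agent.Y172.sum_smul_apply, map_sum]
        refine Finset.sum_congr rfl fun l _ => ?_
        rw [map_mul, hEP']
      have h5 := congrArg (fun Δ => Algebra.trace L K (η Δ)) h4
      simp only [map_sum, map_smul, smul_eq_mul] at h5
      have h6 : ∀ (c : L) (z : K), Algebra.trace L K (algebraMap L K c * z) =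
          c * Algebra.trace L K z := by
        intro c z
        rw [← Algebra.smul_def, map_smul, smul_eq_mul]
      simp only [h6] at h5
      exact h5
    rw [h3, Fin.sum_univ_two]
    exact P.reg_add (P.reg_mul (hδ _ (hl.reg 0)) (h2 0)) (P.reg_mul (hδ _ (hl.reg 1)) (h2 1))
  have h1 := hval (E i)
  rw [hq ω hreg, LinearMap.zero_apply] at h1
  rw [h1]
  simp only [hE, ite_mul, one_mul, zero_mul, Finset.sum_ite_eq, Finset.mem_univ, if_true]

end

end Pool.Agent.Helper11K9.EC
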