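import Pool.Agent.Helper11K9.PR.LowA

/-!
Regular differential forms on rational surfaces.
-/

set_option autoImplicit false
set_option linter.overlappingInstances false
set_option linter.unusedSectionVars false

open FF Polynomial IntermediateField

namespace Pool.Agent.Helper11K9.EC

open Pool.Agent.W603.LV Pool.Agent.W602.GT

section

variable {k M L : Type} [Field k] [Field M] [Field L] [Algebra k M] [Algebra k L] [Algebra M L]
  [IsScalarTower k M L]

/-- the place over a smaller field of constants -/
def res (k : Type) [Field k] [Algebra k M] [Algebra k L] [IsScalarTower k M L] (P : Place M L) :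
    Place k L where
  ord := P.ord
  ord_zero := P.ord_zero
  ord_mul := P.ord_mul
  ord_add := P.ord_add
  ord_const := fun {c} hc => by
    rw [IsScalarTower.algebraMap_apply k M L]
    exact P.ord_const ((_root_.map_ne_zero _).2 hc)
  surj := P.surj

/-- derivations which preserve the constants are regular at the finite places of a rational
function field -/
theorem der_reg {z : L} (hgen : M⟮z⟯ = ⊤) {D : Derivation k L L}
    (hDM : ∀ m : M, ∃ m' : M, D (algebraMap M L m) = algebraMap M L m')
    (hDz : ∃ m' : M, D z = algebraMap M L m') {P : Place M L} (hz : P.Reg z) {f : L}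
    (hf : P.Reg f) : P.Reg (D f) := by
  classical
  -- polynomials in `z`
  have hpreg : ∀ p : M[X], P.Reg (aeval z p) := by
    intro p
    induction p using Polynomial.induction_on' with
    | add p q hp hq =>
      rw [map_add]
      exact P.reg_add hp hq
    | monomial n a =>
      rw [aeval_monomial]
      refine P.reg_mul (P.reg_const a) ?_
      induction n with
      | zero => rw [pow_zero]; exact P.reg_one
      | succ n ih => rw [pow_succ]; exact P.reg_mul ih hz
  have hpD : ∀ p : M[X], P.Reg (D (aeval z p)) := by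
    intro p
    induction p using Polynomial.induction_on' with
    | add p q hp hq =>
      rw [map_add, map_add]
      exact P.reg_add hp hq
    | monomial n a =>
      rw [aeval_monomial, Derivation.leibniz, Derivation.leibniz_pow]
      obtain ⟨a', ha'⟩ := hDM a
      obtain ⟨b', hb'⟩ := hDz
      rw [ha', hb']
      have hzn : ∀ j : ℕ, P.Reg (z ^ j) := by
        intro j
        induction j with
        | zero => rw [pow_zero]; exact P.reg_one
        | succ n ih => rw [pow_succ]; exact P.reg_mul ih hz
      have hn : P.Reg ((n : ℕ) : L) := by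
        have := P.reg_const (n : M)
        rwa [map_natCast] at this
      rw [nsmul_eq_mul]
      simp only [smul_eq_mul]
      exact P.reg_add (P.reg_mul (P.reg_const a) (P.reg_mul hn (P.reg_mul (hzn _)
        (P.reg_const b')))) (P.reg_mul (hzn n) (P.reg_const a'))
  -- fractions
  have hfm : f ∈ M⟮z⟯ := by rw [hgen]; trivial
  obtain ⟨p, q, hpq⟩ := (IntermediateField.mem_adjoin_simple_iff M f).1 hfm
  by_cases hq0 : q = 0
  · rw [hpq, hq0, map_zero, div_zero, map_zero]
    exact P.reg_zero
  obtain ⟨g, hg⟩ : ∃ g, g = EuclideanDomain.gcd p q := ⟨_, rfl⟩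
  have hg0 : g ≠ 0 := by
    rw [hg]
    intro h
    exact hq0 (EuclideanDomain.gcd_eq_zero_iff.1 h).2
  obtain ⟨p', hp'⟩ := EuclideanDomain.gcd_dvd_left p q
  obtain ⟨q', hq'⟩ := EuclideanDomain.gcd_dvd_right p q
  rw [← hg] at hp' hq'
  have hcop : ∃ u v : M[X], u * p' + v * q' = 1 := by
    have h1 := EuclideanDomain.gcd_eq_gcd_ab p q
    rw [← hg] at h1
    refine ⟨EuclideanDomain.gcdA p q, EuclideanDomain.gcdB p q, ?_⟩
    apply mul_left_cancel₀ hg0
    calc g * (EuclideanDomain.gcdA p q * p' + EuclideanDomain.gcdB p q * q')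
        = (g * p') * EuclideanDomain.gcdA p q + (g * q') * EuclideanDomain.gcdB p q := by ring
      _ = p * EuclideanDomain.gcdA p q + q * EuclideanDomain.gcdB p q := by rw [← hp', ← hq']
      _ = g := h1.symm
      _ = g * 1 := (mul_one g).symm
  obtain ⟨u, v, huv⟩ := hcop
  by_cases hgz : aeval z g = 0
  · rw [hpq, hp', map_mul, hgz, zero_mul, zero_div, map_zero]
    exact P.reg_zero
  have hpq' : f = aeval z p' / aeval z q' := by
    rw [hpq, hp', hq', map_mul, map_mul, mul_div_mul_left _ _ hgz]
  by_cases hb0 : aeval z q' = 0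
  · rw [hpq', hb0, div_zero, map_zero]
    exact P.reg_zero
  have hfb : f * aeval z q' = aeval z p' := by
    rw [hpq', div_mul_cancel₀ _ hb0]
  have hb : P.ord (aeval z q') = 0 := by
    by_contra hne
    have h1 : Ge P 1 (aeval z q') := by
      right
      have := (hpreg q').resolve_left hb0
      omega
    have h2 : Ge P 1 (aeval z p') := by
      rw [← hfb]
      have h3 : Ge P 0 f := hf
      have := h3.mul h1
      simpa using this
    have h4 : Ge P 1 (1 : L) := by
      have h5 := congrArg (aeval z) huv
      rw [map_add, map_mul, map_mul, map_one] at h5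
      rw [← h5]
      have h6 : Ge P 0 (aeval z u) := hpreg u
      have h7 : Ge P 0 (aeval z v) := hpreg v
      have h8 := h6.mul h2
      have h9 := h7.mul h1
      rw [zero_add] at h8 h9
      exact h8.add h9
    rcases h4 with h4 | h4
    · exact one_ne_zero h4
    · rw [P.ord_one] at h4
      omega
  have h1 := congrArg D hfb
  rw [Derivation.leibniz] at h1
  simp only [smul_eq_mul] at h1
  have h2 : P.Reg (aeval z q' * D f) := by
    have h3 : aeval z q' * D f = D (aeval z p') + -(f * D (aeval z q')) := by
      rw [← h1]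
      ring
    rw [h3]
    exact P.reg_add (hpD p') (P.reg_neg (P.reg_mul hf (hpD q')))
  by_cases hDf : D f = 0
  · exact Or.inl hDf
  · right
    have h4 := h2.resolve_left (mul_ne_zero hb0 hDf)
    rw [P.ord_mul hb0 hDf, hb, zero_add] at h4
    exact h4

/-- the line has no regular differentials -/
theorem line [CharZero M] [IsFF M L] {s : L} (hs : Transcendental M s) {A : L}
    (h1 : ∀ P : Place M L, P.Reg s → P.Reg A)
    (h2 : ∀ P : Place M L, P.Reg s⁻¹ → P.Reg (s ^ 2 * A)) : A = 0 := by
  by_contra hA
  have hs0 : s ≠ 0 := by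
    rintro rfl
    exact hs isAlgebraic_zero
  have h3 : (2 : ℕ) • polar (k := M) s ≤ divisor M A := by
    intro P
    rw [Finsupp.smul_apply, polar_apply, divisor_apply, nsmul_eq_mul]
    rcases le_or_gt 0 (P.ord s) with h | h
    · rw [max_eq_right (by omega), mul_zero]
      exact (h1 P (Or.inr h)).resolve_left hA
    · rw [max_eq_left (by omega)]
      have h4 := (h2 P (Or.inr (by rw [P.ord_inv]; omega))).resolve_left
        (mul_ne_zero (pow_ne_zero 2 hs0) hA)
      rw [P.ord_mul (pow_ne_zero 2 hs0) hA, P.ord_pow] at h4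
      push_cast at h4 ⊢
      omega
  have h4 := ddeg_mono h3
  rw [ddeg_nsmul, ddeg_polar hs, ddeg_divisor] at h4
  have h5 := IsFF.finite hs
  have h6 : 0 < Module.finrank M⟮s⟯ L := Module.finrank_pos
  push_cast at h4
  omega

end

/-- a differential form on a surface is regular -/
def RegForm {L : Type} [Field L] [Algebra ℂ L] (n : ℕ) (ω : Derivation ℂ L L →ₗ[L] L) : Prop :=
  ∀ P : Place ℂ L, Divisorial n P → ∀ δ : Derivation ℂ L L, DerReg P δ → P.Reg (ω δ)

section

variable {L : Type} [Field L] [Algebra ℂ L]

theorem half {s t : L} (hst : IsTranscendenceBasis ℂ ![s, t]) (hgen : adjoin ℂ {s, t} = ⊤)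
    {ω : Derivation ℂ L L →ₗ[L] L} (hω : RegForm 2 ω) {D : Derivation ℂ L L} (hDs : D s = 1)
    (hDt : D t = 0) : ω D = 0 := by
  classical
  obtain ⟨M, hM⟩ : ∃ M : IntermediateField ℂ L, M = ℂ⟮t⟯ := ⟨_, rfl⟩
  have htM : t ∈ M := by
    rw [hM]
    exact mem_adjoin_simple_self ℂ t
  have hgenM : M⟮s⟯ = ⊤ := by
    apply IntermediateField.restrictScalars_injective ℂ
    rw [IntermediateField.restrictScalars_top, eq_top_iff, ← hgen, adjoin_le_iff]
    rintro x (rfl | rfl)
    · exact mem_adjoin_simple_self M x
    · exact (M⟮s⟯).algebraMap_mem (⟨x, htM⟩ : M)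
  have htt : Transcendental ℂ t := hst.1.transcendental 1
  have hsM : Transcendental M s := by
    have h1 := hst.1
    have h2 : AlgebraicIndependent ℂ ![t, s] := by
      have h3 := h1.comp (Equiv.swap (0 : Fin 2) 1) (Equiv.injective _)
      convert h3 using 1
      ext i
      fin_cases i <;> simp
    have h3 : Transcendental (Algebra.adjoin ℂ {t}) s := by
      have h4 := h2.transcendental_adjoin (s := {0}) (i := 1) (by simp)
      have e : (![t, s] '' {0}) = ({t} : Set L) := by
        rw [Set.image_singleton]
        rfl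
      rw [e] at h4
      exact h4
    open scoped algebraAdjoinAdjoin in
    rw [hM]
    intro h
    exact h3 ((IsFractionRing.isAlgebraic_iff (Algebra.adjoin ℂ {t}) ℂ⟮t⟯ L).2 h)
  have hMc : CharZero M := charZero_of_injective_algebraMap (algebraMap ℂ M).injective
  have hFF : IsFF M L := by
    refine IsFF.of_finite hsM ?_
    rw [hgenM]
    exact Module.Finite.of_surjective (Algebra.linearMap (⊤ : IntermediateField M L) L)
      fun z => ⟨⟨z, trivial⟩, rfl⟩
  have hdiv : ∀ P : Place M L, Divisorial 2 (res ℂ P) := by
    intro P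
    refine ⟨fun _ => t, fun F hF => ?_⟩
    have h1 : AlgebraicIndependent ℂ (fun _ : Fin (2 - 1) => t) := by
      have : Unique (Fin (2 - 1)) := inferInstanceAs (Unique (Fin 1))
      exact algebraicIndependent_unique_type_iff.2 htt
    have h2 : MvPolynomial.aeval (fun _ : Fin (2 - 1) => t) F ≠ 0 := by
      intro h3
      exact hF (h1 (by rw [h3, map_zero]))
    refine ⟨h2, ?_⟩
    have h3 : MvPolynomial.aeval (fun _ : Fin (2 - 1) => t) F =
        algebraMap M L (MvPolynomial.aeval (fun _ : Fin (2 - 1) => (⟨t, htM⟩ : M)) F) := by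
      rw [← MvPolynomial.aeval_algebraMap_apply]
      rfl
    rw [h3] at h2 ⊢
    exact P.ord_const (fun h4 => h2 (by rw [h4, map_zero]))
  have hDM : ∀ m : M, D (algebraMap M L m) = 0 := by
    intro m
    let C0 : IntermediateField ℂ L :=
      { carrier := {z | D z = 0}
        mul_mem' := fun {a b} ha hb => by
          change D (a * b) = 0
          rw [Derivation.leibniz, show D a = 0 from ha, show D b = 0 from hb, smul_zero,
            smul_zero, add_zero]
        add_mem' := fun {a b} ha hb => by
          change D (a + b) = 0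
          rw [map_add, show D a = 0 from ha, show D b = 0 from hb, add_zero]
        algebraMap_mem' := fun c => D.map_algebraMap c
        inv_mem' := fun a ha => by
          change D a⁻¹ = 0
          rw [Derivation.leibniz_inv, show D a = 0 from ha, smul_zero] }
    have h1 : M ≤ C0 := by
      rw [hM, adjoin_simple_le_iff]
      exact hDt
    exact h1 m.2
  have hs0 : s ≠ 0 := by
    rintro rfl
    exact hsM isAlgebraic_zero
  refine line hsM (fun P hP => ?_) fun P hP => ?_
  · refine hω (res ℂ P) (hdiv P) D fun f hf => ?_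
    exact der_reg hgenM (fun m => ⟨0, by rw [hDM, map_zero]⟩) ⟨1, by rw [hDs, map_one]⟩ hP hf
  · have hgen' : M⟮s⁻¹⟯ = ⊤ := by rw [adjoin_inv, hgenM]
    have h1 : P.Reg (ω ((s ^ 2) • D)) := by
      refine hω (res ℂ P) (hdiv P) _ fun f hf => ?_
      refine der_reg hgen' (D := (s ^ 2) • D) (fun m => ⟨0, ?_⟩) ⟨-1, ?_⟩ hP hf
      · rw [Derivation.smul_apply, hDM, smul_zero, map_zero]
      · rw [Derivation.smul_apply, Derivation.leibniz_inv, hDs, map_neg, map_one, smul_eq_mul,
          smul_eq_mul, mul_one, mul_neg]
        congr 1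
        rw [← mul_pow, mul_inv_cancel₀ hs0, one_pow]
    rw [map_smul, smul_eq_mul] at h1
    exact h1

/-- **A rational surface has no regular differential forms.** -/
theorem rational {s t : L} (hst : IsTranscendenceBasis ℂ ![s, t]) (hgen : adjoin ℂ {s, t} = ⊤)
    {ω : Derivation ℂ L L →ₗ[L] L} (hω : RegForm 2 ω) : ω = 0 := by
  classical
  have hts : IsTranscendenceBasis ℂ ![t, s] := by
    have h1 := (isTranscendenceBasis_equiv (Equiv.swap (0 : Fin 2) 1)).2 hst
    convert h1 using 1
    ext i
    fin_cases i <;> simp
  obtain ⟨D, hD⟩ := exists_dual hst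
  have hD' : ∀ i j, D i (![s, t] j) = if i = j then 1 else 0 := by
    intro i j
    have := congrFun (congrFun hD i) j
    rw [Matrix.of_apply, Matrix.one_apply] at this
    exact this
  have h0 : ω (D 0) = 0 := half hst hgen hω (by simpa using hD' 0 0) (by simpa using hD' 0 1)
  have h1 : ω (D 1) = 0 := by
    refine half hts ?_ hω (by simpa using hD' 1 1) (by simpa using hD' 1 0)
    rw [Set.pair_comm]
    exact hgen
  ext δ
  have h2 := Pool.Agent.W73.PG.PULL.expand ![s, t] hst D hD' δ
  rw [← h2, map_sum, Fin.sum_univ_two, map_smul, map_smul, h0, h1, smul_zero, smul_zero, add_zero]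
  rfl

end

end Pool.Agent.Helper11K9.EC
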