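import Pool.Agent.Helper11K9.EC.Fin

/-!
A map of degree three from the product of an elliptic curve and a curve onto a ruled surface.
-/

set_option autoImplicit false
set_option linter.overlappingInstances false
set_option linter.unusedSectionVars false

open FF Polynomial IntermediateField

noncomputable section

namespace Pool.Agent.Helper11K9.EC

open Pool.Agent.W603.LV Pool.Agent.W602.GT Pool.Agent.Helper11K9.OD
open Pool.Agent.R882.Over (GenusZero)

theorem to_ruled {K : Type} [Field K] [Algebra ℂ K] (F : Fin 2 → IntermediateField ℂ K)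
    [∀ i, IsFF ℂ (F i)] (hsup : ⨆ i, F i = ⊤) (hn : Algebra.trdeg ℂ K = (2 : ℕ))
    (h : IsEll (F 0)) : ∃ L : IntermediateField ℂ K, GenusZero L 2 ∧ Module.finrank L K = 3 := by
  classical
  obtain ⟨a, b, hab, x, y, hx, hy, hxy⟩ := h
  obtain ⟨M, hM⟩ : ∃ M : IntermediateField ℂ K, M = F 1 := ⟨_, rfl⟩
  have hMF : IsFF ℂ M := by
    rw [hM]
    infer_instance
  have hMc : CharZero M := charZero_of_injective_algebraMap (algebraMap ℂ M).injective
  obtain ⟨t, ht⟩ := IsFF.exists_transcendental (k := ℂ) (K := M)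
  have hyK : (y : K) ^ 2 = (x : K) ^ 3 + algebraMap ℂ K a * (x : K) + algebraMap ℂ K b :=
    congrArg (fun w : F 0 => (w : K)) hy
  -- the cubic equation of `x`
  have hcub : ∀ N : IntermediateField M K, (y : K) ∈ N → ∃ p : N[X], p ≠ 0 ∧ p.natDegree = 3 ∧
      aeval (x : K) p = 0 := by
    intro N hyN
    have hc : ∀ c : ℂ, algebraMap ℂ K c ∈ N := fun c => by
      rw [IsScalarTower.algebraMap_apply ℂ M K]
      exact N.algebraMap_mem _
    refine ⟨(⟨1, 0, ⟨_, hc a⟩, ⟨_, sub_mem (hc b) (pow_mem hyN 2)⟩⟩ : Cubic N).toPoly,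
      Cubic.ne_zero_of_a_ne_zero one_ne_zero, Cubic.natDegree_of_a_ne_zero one_ne_zero, ?_⟩
    unfold Cubic.toPoly
    simp only [map_add, map_mul, map_pow, aeval_C, aeval_X, map_one, map_zero, zero_mul, add_zero,
      one_mul]
    change (x : K) ^ 3 + algebraMap ℂ K a * (x : K) + (algebraMap ℂ K b - (y : K) ^ 2) = 0
    rw [hyK]
    ring
  -- generation
  have hgen : ∀ N : IntermediateField M K, (x : K) ∈ N → (y : K) ∈ N → N = ⊤ := by
    intro N hxN hyN
    have h1 : (⊤ : IntermediateField ℂ K) ≤ N.restrictScalars ℂ := by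
      rw [← hsup]
      refine iSup_le fun i => ?_
      fin_cases i
      · exact le_of_gen (F 0) _ hxy hxN hyN
      · intro z hz
        exact N.algebraMap_mem (⟨z, by rw [hM]; exact hz⟩ : M)
    rw [eq_top_iff]
    intro z _
    exact h1 trivial
  -- `y` is transcendental
  have hyM : Transcendental M (y : K) := by
    intro halg
    have hyA : (y : K) ∈ algebraicClosure M K := mem_algebraicClosure_iff.2 halg
    have hxA : (x : K) ∈ algebraicClosure M K := by
      obtain ⟨p, hp0, -, hp⟩ := hcub _ hyA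
      have h1 : IsAlgebraic (algebraicClosure M K) (x : K) := ⟨p, hp0, hp⟩
      have h2 : Algebra.IsAlgebraic M (algebraicClosure M K) := inferInstance
      exact mem_algebraicClosure_iff.2 (h1.restrictScalars M)
    have htop := hgen _ hxA hyA
    have h3 : Algebra.IsAlgebraic M K := by
      refine ⟨fun z => ?_⟩
      have h4 : z ∈ algebraicClosure M K := by rw [htop]; trivial
      exact mem_algebraicClosure_iff.1 h4
    have h5 := trdeg_add_eq ℂ M (A := K)
    have h6 : Algebra.trdeg M K = 0 := trdeg_eq_zero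
    rw [h6, hn, add_zero, IsFF.trdeg] at h5
    norm_num at h5
  obtain ⟨N, hN⟩ : ∃ N : IntermediateField M K, N = M⟮(y : K)⟯ := ⟨_, rfl⟩
  have hyN : (y : K) ∈ N := by
    rw [hN]
    exact mem_adjoin_simple_self M _
  obtain ⟨p, hp0, hpd, hpz⟩ := hcub N hyN
  have hint : IsIntegral N (x : K) := IsAlgebraic.isIntegral ⟨p, hp0, hpz⟩
  have hxgen : N⟮(x : K)⟯ = ⊤ := by
    have h1 : (N⟮(x : K)⟯).restrictScalars M = ⊤ := by
      refine hgen _ ?_ ?_
      · exact mem_adjoin_simple_self N _
      · exact (N⟮(x : K)⟯).algebraMap_mem (⟨_, hyN⟩ : N)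
    rw [eq_top_iff]
    intro z _
    have h2 : z ∈ (N⟮(x : K)⟯).restrictScalars M := by rw [h1]; trivial
    exact h2
  have hfin : FiniteDimensional N K := by
    have h1 := IntermediateField.adjoin.finiteDimensional hint
    rw [hxgen] at h1
    exact h1.equiv IntermediateField.topEquiv.toLinearEquiv
  have hup : Module.finrank N K ≤ 3 := by
    rw [← IntermediateField.finrank_top', ← hxgen, IntermediateField.adjoin.finrank hint, ← hpd]
    exact Polynomial.natDegree_le_of_dvd (minpoly.dvd _ _ hpz) hp0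
  have hFF : IsFF M K := IsFF.of_finite hyM (by rw [← hN]; exact hfin)
  obtain ⟨S, hS, hS3⟩ := poles (k := M) (K := K) hyM
  rw [← hN] at hS3
  have hlow : 3 ≤ Module.finrank N K := by
    have hpos : 0 < Module.finrank N K := Module.finrank_pos
    have hne : S.Nonempty := by
      rw [Finset.nonempty_iff_ne_empty]
      intro h0
      rw [h0, Finset.sum_empty] at hS3
      omega
    obtain ⟨Q, hQ⟩ := hne
    have hQy := (hS Q).1 hQ
    have hy0 : (y : K) ≠ 0 := by
      intro h0
      rw [h0, Q.ord_zero] at hQy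
      exact lt_irrefl _ hQy
    have hc : ∀ c : ℂ, Ge Q 0 (algebraMap ℂ K c) := fun c => by
      rw [IsScalarTower.algebraMap_apply ℂ M K]
      exact Ge.const _
    have hy2 : Q.ord ((y : K) ^ 2) = 2 * Q.ord (y : K) := by
      rw [Q.ord_pow]
      push_cast
      ring
    have hxneg : Q.ord (x : K) < 0 := by
      by_contra hcon
      push Not at hcon
      have h1 : Ge Q 0 (x : K) := Or.inr hcon
      have h2 : Ge Q 0 ((y : K) ^ 2) := by
        rw [hyK]
        refine (Ge.add ?_ ?_).add (hc b)
        · simpa using h1.pow 3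
        · simpa using (hc a).mul h1
      have h3 := h2.resolve_left (pow_ne_zero 2 hy0)
      rw [hy2] at h3
      omega
    have hx0 : (x : K) ≠ 0 := by
      intro h0
      rw [h0, Q.ord_zero] at hxneg
      exact lt_irrefl _ hxneg
    have h1 : Q.ord ((y : K) ^ 2) = 3 * Q.ord (x : K) := by
      have h2 : Ge Q (Q.ord (x : K)) (algebraMap ℂ K a * (x : K) + algebraMap ℂ K b) := by
        refine Ge.add ?_ ((hc b).mono (by omega))
        have h3 : Ge Q (Q.ord (x : K)) (x : K) := Or.inr le_rfl
        simpa using (hc a).mul h3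
      rw [hyK, add_assoc]
      rcases h2 with h2 | h2
      · rw [h2, add_zero, Q.ord_pow]
        push_cast
        ring
      · by_cases h3 : algebraMap ℂ K a * (x : K) + algebraMap ℂ K b = 0
        · rw [h3, add_zero, Q.ord_pow]
          push_cast
          ring
        · have h4 := Q.ord_add_eq (pow_ne_zero 3 hx0) h3 (by
            rw [Q.ord_pow]
            push_cast
            omega)
          rw [h4.2, Q.ord_pow]
          push_cast
          ring
    rw [hy2] at h1
    have h2 := Q.deg_pos
    rw [← hS3]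
    refine le_trans ?_ (Finset.single_le_sum (fun w _ => Nat.zero_le _) hQ)
    have h3 : 3 ≤ (-Q.ord (y : K)).toNat := by omega
    nlinarith
  refine ⟨N.restrictScalars ℂ, ?_, le_antisymm hup hlow⟩
  -- the geometric genus
  obtain ⟨L, hL⟩ : ∃ L : IntermediateField ℂ K, L = N.restrictScalars ℂ := ⟨_, rfl⟩
  let i1 : Algebra M (N.restrictScalars ℂ) := (inferInstance : Algebra M N)
  have i2 : IsScalarTower ℂ M (N.restrictScalars ℂ) :=
    IsScalarTower.of_algebraMap_eq fun c => rfl
  obtain ⟨yN, hyN'⟩ : ∃ yN : N.restrictScalars ℂ, yN = ⟨(y : K), hyN⟩ := ⟨_, rfl⟩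
  have hyN2 : Transcendental M yN := by
    intro h1
    apply hyM
    have h2 := h1.algHom (N.val : N →ₐ[M] K)
    rw [hyN'] at h2
    exact h2
  have hgenN : M⟮yN⟯ = ⊤ := by
    apply IntermediateField.map_injective (N.val : N →ₐ[M] K)
    have h1 : (IntermediateField.map (N.val : N →ₐ[M] K) (⊤ : IntermediateField M N)) = N := by
      rw [← AlgHom.fieldRange_eq_map, IntermediateField.fieldRange_val]
    have h2 : IntermediateField.map (N.val : N →ₐ[M] K) (M⟮(⟨(y : K), hyN⟩ : N)⟯) =
        M⟮(y : K)⟯ := by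
      rw [IntermediateField.adjoin_map, Set.image_singleton]
      rfl
    rw [hyN']
    exact (h2.trans hN.symm).trans h1.symm
  refine ruled (M := M) ht hyN2 hgenN ?_
  have hn' : Algebra.trdeg ℂ (N.restrictScalars ℂ) = (2 : ℕ) := by
    have hfin' : FiniteDimensional (N.restrictScalars ℂ) K := hfin
    exact Pool.Agent.Y184.NT.trdeg_below (K := K) hn
  refine indep_of_alg hn' _ _ fun z => ?_
  -- algebraic over the subfield generated by `y` and `t`
  obtain ⟨A, hA⟩ : ∃ A : IntermediateField ℂ (N.restrictScalars ℂ),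
      A = adjoin ℂ {yN, algebraMap M (N.restrictScalars ℂ) t} := ⟨_, rfl⟩
  rw [← hA]
  have hyA : yN ∈ A := by
    rw [hA]
    exact subset_adjoin _ _ (by simp)
  have htA : algebraMap M (N.restrictScalars ℂ) t ∈ A := by
    rw [hA]
    exact subset_adjoin _ _ (by simp)
  have hMA : ∀ m : M, algebraMap M (N.restrictScalars ℂ) m ∈ algebraicClosure A
      (N.restrictScalars ℂ) := by
    intro m
    rw [mem_algebraicClosure_iff]
    have h1 := (IsFF.isAlgebraic ht).isAlgebraic m
    let φ : M →ₐ[ℂ] (N.restrictScalars ℂ) := IsScalarTower.toAlgHom ℂ M _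
    have hle : ℂ⟮t⟯ ≤ A.comap φ := by
      rw [adjoin_simple_le_iff]
      exact htA
    let f : ℂ⟮t⟯ →+* A := ((φ : M →+* (N.restrictScalars ℂ)).comp
      (algebraMap ℂ⟮t⟯ M)).codRestrict A fun w => hle w.2
    exact h1.ringHom_of_comp_eq f (φ : M →+* (N.restrictScalars ℂ)) f.injective (by ext w; rfl)
  have h1 : z ∈ algebraicClosure A (N.restrictScalars ℂ) := by
    have h2 : z ∈ M⟮yN⟯ := by rw [hgenN]; trivial
    induction h2 using IntermediateField.adjoin_induction with
    | mem w hw =>
      rw [Set.mem_singleton_iff.1 hw]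
      exact (algebraicClosure A (N.restrictScalars ℂ)).algebraMap_mem (⟨yN, hyA⟩ : A)
    | algebraMap m => exact hMA m
    | add u v _ _ hu hv => exact add_mem hu hv
    | inv u _ hu => exact inv_mem hu
    | mul u v _ _ hu hv => exact mul_mem hu hv
  exact mem_algebraicClosure_iff.1 h1

end Pool.Agent.Helper11K9.EC
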