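import Pool.Agent.Helper11K9.EC.Rat
import Pool.Agent.W619.PQ.Alg

/-!
A rational map of degree three from the product of two elliptic curves to the plane.
-/

set_option autoImplicit false
set_option linter.overlappingInstances false
set_option linter.unusedSectionVars false

open FF Polynomial IntermediateField

namespace Pool.Agent.Helper11K9.EC

open Pool.Agent.W603.LV Pool.Agent.W602.GT

/-- Two elements over which a field of transcendence degree two is algebraic are independent. -/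
theorem indep_of_alg {K : Type} [Field K] [Algebra ℂ K] (hn : Algebra.trdeg ℂ K = (2 : ℕ))
    (a b : K) (h : ∀ z : K, IsAlgebraic (adjoin ℂ {a, b}) z) :
    IsTranscendenceBasis ℂ ![a, b] := by
  have e : Set.range ![a, b] = {a, b} := by
    rw [Matrix.range_cons, Matrix.range_cons, Matrix.range_empty, Set.union_empty,
      Set.singleton_union]
  have h1 : Algebra.IsAlgebraic (Algebra.adjoin ℂ (Set.range ![a, b])) K := by
    rw [e]
    exact Pool.Agent.W619.PQ.alg_adjoin h
  refine Algebra.IsAlgebraic.isTranscendenceBasis_of_lift_le_trdeg_of_finite ℂ _ ?_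
  rw [hn]
  simp

section

variable {M K : Type} [Field M] [Field K] [Algebra M K]

/-- the equation forces triple ramification -/
theorem ram {P : Place M K} {z s τ : K} {a g a' g' : M} {t : M} (hτ : τ = algebraMap M K t)
    (ht : t ≠ 0) (hg : g ≠ 0) (hg' : g' ≠ 0) (h2 : (2 : M) ≠ 0) (hs : 0 < P.ord s) (hz : z ≠ 0)
    (heq : z ^ 3 * (s ^ 2 - τ ^ 3) ^ 2 = 4 * s *
      (τ ^ 3 * (algebraMap M K a * z + algebraMap M K g) -
        s * (algebraMap M K a' * (τ * z) + algebraMap M K g')) *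
      (s * (algebraMap M K a * z + algebraMap M K g) -
        (algebraMap M K a' * (τ * z) + algebraMap M K g'))) : 3 ≤ P.ord s := by
  have hs0 : s ≠ 0 := by
    rintro rfl
    rw [P.ord_zero] at hs
    exact lt_irrefl _ hs
  have hτ0 : τ ≠ 0 := by
    rw [hτ]
    exact (_root_.map_ne_zero _).2 ht
  have hτo : P.ord τ = 0 := by
    rw [hτ]
    exact P.ord_const ht
  obtain ⟨m, hm⟩ : ∃ m, m = algebraMap M K a * z + algebraMap M K g := ⟨_, rfl⟩
  obtain ⟨m', hm'⟩ : ∃ m', m' = algebraMap M K a' * (τ * z) + algebraMap M K g' := ⟨_, rfl⟩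
  rw [← hm, ← hm'] at heq
  have hd : s ^ 2 - τ ^ 3 ≠ 0 ∧ P.ord (s ^ 2 - τ ^ 3) = 0 := by
    have h1 := P.ord_add_eq (f := -τ ^ 3) (g := s ^ 2) (neg_ne_zero.2 (pow_ne_zero 3 hτ0))
      (pow_ne_zero 2 hs0) (by
        rw [P.ord_neg, P.ord_pow, P.ord_pow, hτo]
        push_cast
        omega)
    rw [P.ord_neg, P.ord_pow, hτo, mul_zero, neg_add_eq_sub] at h1
    exact h1
  have h4 : (4 : K) ≠ 0 := by
    have h5 : (4 : K) = algebraMap M K (2 * 2) := by
      rw [map_mul, map_ofNat]
      norm_num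
    rw [h5]
    exact (_root_.map_ne_zero _).2 (mul_ne_zero h2 h2)
  have h4o : P.ord (4 : K) = 0 := by
    have h5 : (4 : K) = algebraMap M K (2 * 2) := by
      rw [map_mul, map_ofNat]
      norm_num
    rw [h5]
    exact P.ord_const (mul_ne_zero h2 h2)
  have hLHS : z ^ 3 * (s ^ 2 - τ ^ 3) ^ 2 ≠ 0 := mul_ne_zero (pow_ne_zero 3 hz) (pow_ne_zero 2 hd.1)
  have hLo : P.ord (z ^ 3 * (s ^ 2 - τ ^ 3) ^ 2) = 3 * P.ord z := by
    rw [P.ord_mul (pow_ne_zero 3 hz) (pow_ne_zero 2 hd.1), P.ord_pow, P.ord_pow, hd.2]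
    push_cast
    ring
  have hgτ : Ge P 0 τ := Or.inr hτo.ge
  have hzpos : 0 < P.ord z := by
    by_contra hcon
    push Not at hcon
    obtain ⟨n, hn⟩ : ∃ n, n = P.ord z := ⟨_, rfl⟩
    have hgz : Ge P n z := Or.inr hn.le
    have hgm : Ge P n m := by
      rw [hm]
      refine Ge.add ?_ ((Ge.const (P := P) g).mono (by omega))
      simpa using (Ge.const (P := P) a).mul hgz
    have hgm' : Ge P n m' := by
      rw [hm']
      refine Ge.add ?_ ((Ge.const (P := P) g').mono (by omega))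
      simpa using (Ge.const (P := P) a').mul (hgτ.mul hgz)
    have hgs : Ge P 0 s := Or.inr hs.le
    have hA : Ge P n (τ ^ 3 * m - s * m') := by
      refine Ge.sub ?_ ?_
      · have := (hgτ.pow 3).mul hgm
        simpa using this
      · simpa using hgs.mul hgm'
    have hB : Ge P n (s * m - m') := by
      refine Ge.sub ?_ hgm'
      simpa using hgs.mul hgm
    have h5 : Ge P (P.ord s) (4 * s) := by
      right
      rw [P.ord_mul h4 hs0, h4o, zero_add]
    have h6 := (h5.mul hA).mul hB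
    rw [← heq] at h6
    have h7 := h6.resolve_left hLHS
    rw [hLo] at h7
    omega
  have hgz : Ge P 1 z := Or.inr (by omega)
  have hunit : ∀ (b : K) (c : M), c ≠ 0 → Ge P 1 b →
      b + algebraMap M K c ≠ 0 ∧ P.ord (b + algebraMap M K c) = 0 := by
    intro b c hc hb
    have hc' : algebraMap M K c ≠ 0 := (_root_.map_ne_zero _).2 hc
    by_cases hb0 : b = 0
    · rw [hb0, zero_add]
      exact ⟨hc', P.ord_const hc⟩
    · have h5 := P.ord_add_eq hc' hb0 (by
        rw [P.ord_const hc]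
        have := hb.resolve_left hb0
        omega)
      rw [P.ord_const hc, add_comm] at h5
      exact h5
  have hm0 : m ≠ 0 ∧ P.ord m = 0 := by
    rw [hm]
    refine hunit _ g hg ?_
    simpa using (Ge.const (P := P) a).mul hgz
  have hm0' : m' ≠ 0 ∧ P.ord m' = 0 := by
    rw [hm']
    refine hunit _ g' hg' ?_
    simpa using (Ge.const (P := P) a').mul (hgτ.mul hgz)
  have hA : τ ^ 3 * m - s * m' ≠ 0 ∧ P.ord (τ ^ 3 * m - s * m') = 0 := by
    have h5 := P.ord_add_eq (f := τ ^ 3 * m) (g := -(s * m'))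
      (mul_ne_zero (pow_ne_zero 3 hτ0) hm0.1) (neg_ne_zero.2 (mul_ne_zero hs0 hm0'.1)) (by
        rw [P.ord_neg, P.ord_mul (pow_ne_zero 3 hτ0) hm0.1, P.ord_mul hs0 hm0'.1, P.ord_pow, hτo,
          hm0.2, hm0'.2]
        push_cast
        omega)
    rw [P.ord_mul (pow_ne_zero 3 hτ0) hm0.1, P.ord_pow, hτo, hm0.2, ← sub_eq_add_neg] at h5
    simpa using h5
  have hB : s * m - m' ≠ 0 ∧ P.ord (s * m - m') = 0 := by
    have h5 := P.ord_add_eq (f := -m') (g := s * m)
      (neg_ne_zero.2 hm0'.1) (mul_ne_zero hs0 hm0.1) (by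
        rw [P.ord_neg, P.ord_mul hs0 hm0.1, hm0.2, hm0'.2]
        omega)
    rw [P.ord_neg, hm0'.2, neg_add_eq_sub] at h5
    exact h5
  have h5 := congrArg P.ord heq
  rw [hLo, P.ord_mul (mul_ne_zero (mul_ne_zero h4 hs0) hA.1) hB.1,
    P.ord_mul (mul_ne_zero h4 hs0) hA.1, P.ord_mul h4 hs0, h4o, hA.2, hB.2] at h5
  omega

end

end Pool.Agent.Helper11K9.EC
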