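import Pool.Agent.Helper11K9.EC.Tri

/-!
A rational map of degree three from the product of two elliptic curves to the plane.
-/

set_option autoImplicit false
set_option linter.overlappingInstances false
set_option linter.unusedSectionVars false

open FF Polynomial IntermediateField

namespace Pool.Agent.Helper11K9.EC

open Pool.Agent.W603.LV Pool.Agent.W602.GT

section

variable {K : Type} [Field K] [Algebra ℂ K]

theorem cubic_ne {z : K} (hz : Transcendental ℂ z) (p q r : ℂ) :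
    z ^ 3 + algebraMap ℂ K p * z ^ 2 + algebraMap ℂ K q * z + algebraMap ℂ K r ≠ 0 := by
  intro h
  apply hz
  refine ⟨(⟨1, p, q, r⟩ : Cubic ℂ).toPoly, Cubic.ne_zero_of_a_ne_zero (by simp), ?_⟩
  unfold Cubic.toPoly
  simp only [map_add, map_mul, map_pow, aeval_C, aeval_X, map_one, one_mul]
  exact h

/-- the two coordinates of the map are not related -/
theorem nondeg {z w z' w' u u' v v' m m' : K} {α γ α' γ' : ℂ} (hγ : γ ≠ 0)
    (hm : m = algebraMap ℂ K α * z + algebraMap ℂ K γ)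
    (hm' : m' = algebraMap ℂ K α' * z' + algebraMap ℂ K γ')
    (hu : u = w - m) (hv : v = w + m) (hu' : u' = w' - m') (hv' : v' = w' + m')
    (huv : u * v = z ^ 3) (huv' : u' * v' = z' ^ 3) (hu0' : u' ≠ 0) (hw0' : w' ≠ 0)
    (hb : IsTranscendenceBasis ℂ ![z, z']) : v' * u ≠ v * u' := by
  intro hcon
  have hchar : CharZero K := charZero_of_injective_algebraMap (algebraMap ℂ K).injective
  obtain ⟨D, hD⟩ := exists_der ![z, z'] hb ![1, 0]
  have hDz : D z = 1 := by simpa using hD 0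
  have hDz' : D z' = 0 := by simpa using hD 1
  have hDm : D m = algebraMap ℂ K α := by
    rw [hm, map_add, Derivation.leibniz, D.map_algebraMap, D.map_algebraMap, hDz]
    simp
  have hDm' : D m' = 0 := by
    rw [hm', map_add, Derivation.leibniz, D.map_algebraMap, D.map_algebraMap, hDz']
    simp
  have hDw' : D w' = 0 := by
    have h1 : w' ^ 2 = z' ^ 3 + m' ^ 2 := by
      rw [← huv', hu', hv']
      ring
    have h2 := congrArg D h1
    rw [map_add, Derivation.leibniz_pow, Derivation.leibniz_pow, Derivation.leibniz_pow, hDz',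
      hDm', smul_zero, smul_zero, smul_zero, smul_zero, add_zero, nsmul_eq_mul, smul_eq_mul] at h2
    rcases mul_eq_zero.1 h2 with h3 | h3
    · norm_num at h3
    · rcases mul_eq_zero.1 h3 with h4 | h4
      · exact absurd (pow_eq_zero_iff (by norm_num) |>.1 h4) hw0'
      · exact h4
  obtain ⟨κ, hκ⟩ : ∃ κ, κ = v' / u' := ⟨_, rfl⟩
  have hDu' : D u' = 0 := by rw [hu', map_sub, hDw', hDm', sub_zero]
  have hDv' : D v' = 0 := by rw [hv', map_add, hDw', hDm', add_zero]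
  have hDκ : D κ = 0 := by
    have h1 : κ * u' = v' := by rw [hκ, div_mul_cancel₀ _ hu0']
    have h2 := congrArg D h1
    rw [Derivation.leibniz, hDu', hDv', smul_zero, zero_add, smul_eq_mul] at h2
    exact (mul_eq_zero.1 h2).resolve_left hu0'
  have hvu : v = κ * u := by
    rw [hκ]
    field_simp
    exact hcon.symm
  have e1 : κ * u ^ 2 = z ^ 3 := by
    rw [← huv, hvu]
    ring
  have e2 : (κ - 1) * u = 2 * m := by
    have h1 : (κ - 1) * u = v - u := by rw [hvu]; ring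
    rw [h1, hv, hu]
    ring
  have e2' : (κ - 1) * D u = 2 * algebraMap ℂ K α := by
    have h1 := congrArg D e2
    rw [Derivation.leibniz, Derivation.leibniz, map_sub, hDκ, D.map_one_eq_zero, sub_zero,
      smul_zero, add_zero, hDm] at h1
    have h2 : D (2 : K) = 0 := by
      have := D.map_natCast 2
      simpa using this
    rw [h2, smul_zero, add_zero] at h1
    simpa using h1
  have e1' : κ * (2 * (u * D u)) = 3 * z ^ 2 := by
    have h1 := congrArg D e1
    rw [Derivation.leibniz, Derivation.leibniz_pow, Derivation.leibniz_pow, hDκ, hDz, smul_zero,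
      add_zero] at h1
    simpa using h1
  have e3 : 8 * algebraMap ℂ K α * κ * m = 3 * (κ - 1) ^ 2 * z ^ 2 := by
    have h1 : 3 * (κ - 1) ^ 2 * z ^ 2 = (κ - 1) ^ 2 * (κ * (2 * (u * D u))) := by
      rw [e1']
      ring
    rw [h1]
    have h2 : (κ - 1) ^ 2 * (κ * (2 * (u * D u))) =
        κ * 2 * (((κ - 1) * u) * ((κ - 1) * D u)) := by ring
    rw [h2, e2, e2']
    ring
  have e4 : 8 * algebraMap ℂ K α ^ 2 * κ = 6 * (κ - 1) ^ 2 * z := by
    have h1 := congrArg D e3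
    have h2 : D (8 * algebraMap ℂ K α * κ * m) = 8 * algebraMap ℂ K α ^ 2 * κ := by
      have h3 : D (8 * algebraMap ℂ K α * κ) = 0 := by
        have h4 : (8 : K) * algebraMap ℂ K α = algebraMap ℂ K (8 * α) := by
          rw [map_mul, map_ofNat]
        rw [h4, Derivation.leibniz, hDκ, D.map_algebraMap, smul_zero, smul_zero, add_zero]
      rw [Derivation.leibniz, h3, smul_zero, add_zero, hDm, smul_eq_mul]
      ring
    have h3 : D (3 * (κ - 1) ^ 2 * z ^ 2) = 6 * (κ - 1) ^ 2 * z := by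
      have h4 : D (3 * (κ - 1) ^ 2) = 0 := by
        have h5 : D (3 : K) = 0 := by
          have := D.map_natCast 3
          simpa using this
        rw [Derivation.leibniz, Derivation.leibniz_pow, map_sub, hDκ, D.map_one_eq_zero, h5,
          sub_zero, smul_zero, smul_zero, smul_zero, smul_zero, add_zero]
      rw [Derivation.leibniz, h4, smul_zero, add_zero, Derivation.leibniz_pow, hDz]
      simp only [smul_eq_mul, nsmul_eq_mul, mul_one]
      norm_num
      ring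
    rw [h2, h3] at h1
    exact h1
  have e5 : (κ - 1) ^ 2 = 0 := by
    have h1 := congrArg D e4
    have h2 : D (8 * algebraMap ℂ K α ^ 2 * κ) = 0 := by
      have h4 : (8 : K) * algebraMap ℂ K α ^ 2 = algebraMap ℂ K (8 * α ^ 2) := by
        rw [map_mul, map_ofNat, map_pow]
      rw [h4, Derivation.leibniz, hDκ, D.map_algebraMap, smul_zero, smul_zero, add_zero]
    have h3 : D (6 * (κ - 1) ^ 2 * z) = 6 * (κ - 1) ^ 2 := by
      have h4 : D (6 * (κ - 1) ^ 2) = 0 := by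
        have h5 : D (6 : K) = 0 := by
          have := D.map_natCast 6
          simpa using this
        rw [Derivation.leibniz, Derivation.leibniz_pow, map_sub, hDκ, D.map_one_eq_zero, h5,
          sub_zero, smul_zero, smul_zero, smul_zero, smul_zero, add_zero]
      rw [Derivation.leibniz, h4, smul_zero, add_zero, hDz, smul_eq_mul, mul_one]
    rw [h2, h3] at h1
    rcases mul_eq_zero.1 h1.symm with h | h
    · norm_num at h
    · exact h
  have hκ1 : κ = 1 := by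
    have := pow_eq_zero_iff (n := 2) (by norm_num) |>.1 e5
    linear_combination this
  rw [hκ1, sub_self, zero_mul] at e2
  have hm0 : m = 0 := by
    rcases mul_eq_zero.1 e2.symm with h | h
    · norm_num at h
    · exact h
  rw [hm0] at hDm
  rw [map_zero] at hDm
  rw [hm0, ← hDm, zero_mul, zero_add] at hm
  exact hγ ((map_eq_zero _).1 hm.symm)

/-- **A map of degree three.** -/
theorem tri {z w z' w' : K} {α γ α' γ' : ℂ} (hγ : γ ≠ 0) (hγ' : γ' ≠ 0)
    (h : w ^ 2 = z ^ 3 + (algebraMap ℂ K α * z + algebraMap ℂ K γ) ^ 2)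
    (h' : w' ^ 2 = z' ^ 3 + (algebraMap ℂ K α' * z' + algebraMap ℂ K γ') ^ 2)
    (hb : IsTranscendenceBasis ℂ ![z, z']) (hgen : adjoin ℂ {z, w, z', w'} = ⊤) :
    ∃ s t : K, AlgebraicIndependent ℂ ![s, t] ∧ Module.finrank (adjoin ℂ {s, t}) K = 3 := by
  classical
  have hchar : CharZero K := charZero_of_injective_algebraMap (algebraMap ℂ K).injective
  have hn : Algebra.trdeg ℂ K = (2 : ℕ) := by
    rw [← hb.cardinalMk_eq_trdeg]
    simp
  obtain ⟨m, hm⟩ : ∃ m, m = algebraMap ℂ K α * z + algebraMap ℂ K γ := ⟨_, rfl⟩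
  obtain ⟨m', hm'⟩ : ∃ m', m' = algebraMap ℂ K α' * z' + algebraMap ℂ K γ' := ⟨_, rfl⟩
  obtain ⟨u, hu⟩ : ∃ u, u = w - m := ⟨_, rfl⟩
  obtain ⟨v, hv⟩ : ∃ v, v = w + m := ⟨_, rfl⟩
  obtain ⟨u', hu'⟩ : ∃ u', u' = w' - m' := ⟨_, rfl⟩
  obtain ⟨v', hv'⟩ : ∃ v', v' = w' + m' := ⟨_, rfl⟩
  have huv : u * v = z ^ 3 := by
    rw [hu, hv]
    rw [← hm] at h
    linear_combination h
  have huv' : u' * v' = z' ^ 3 := by
    rw [hu', hv']
    rw [← hm'] at h'
    linear_combination h'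
  have hzt : Transcendental ℂ z := hb.1.transcendental 0
  have hzt' : Transcendental ℂ z' := hb.1.transcendental 1
  have hz0 : z ≠ 0 := by
    rintro rfl
    exact hzt isAlgebraic_zero
  have hz0' : z' ≠ 0 := by
    rintro rfl
    exact hzt' isAlgebraic_zero
  have hu0 : u ≠ 0 := by
    intro h0
    rw [h0, zero_mul] at huv
    exact pow_ne_zero 3 hz0 huv.symm
  have hu0' : u' ≠ 0 := by
    intro h0
    rw [h0, zero_mul] at huv'
    exact pow_ne_zero 3 hz0' huv'.symm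
  have hv0 : v ≠ 0 := by
    intro h0
    rw [h0, mul_zero] at huv
    exact pow_ne_zero 3 hz0 huv.symm
  have hw0' : w' ≠ 0 := by
    intro h0
    refine cubic_ne hzt' (α' ^ 2) (2 * α' * γ') (γ' ^ 2) ?_
    rw [h0] at h'
    rw [map_pow, map_mul, map_mul, map_pow, map_ofNat]
    linear_combination -h'
  have hnd : v' * u ≠ v * u' := nondeg hγ hm hm' hu hv hu' hv' huv huv' hu0' hw0' hb
  obtain ⟨τ, hτ⟩ : ∃ τ, τ = z' / z := ⟨_, rfl⟩
  obtain ⟨s, hs⟩ : ∃ s, s = u' / u := ⟨_, rfl⟩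
  have hzz : z' = τ * z := by rw [hτ, div_mul_cancel₀ _ hz0]
  have huu : u' = s * u := by rw [hs, div_mul_cancel₀ _ hu0]
  have hτ0 : τ ≠ 0 := by
    rw [hτ]
    exact div_ne_zero hz0' hz0
  have e5 : s * v' = τ ^ 3 * v := by
    apply mul_left_cancel₀ hu0
    calc u * (s * v') = (s * u) * v' := by ring
      _ = z' ^ 3 := by rw [← huu, huv']
      _ = τ ^ 3 * z ^ 3 := by rw [hzz]; ring
      _ = τ ^ 3 * (u * v) := by rw [huv]
      _ = u * (τ ^ 3 * v) := by ring
  obtain ⟨d, hd⟩ : ∃ d, d = s ^ 2 - τ ^ 3 := ⟨_, rfl⟩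
  have hd0 : d ≠ 0 := by
    intro h0
    rw [hd] at h0
    apply hnd
    have h1 : s * (v' * u) = s * (v * u') := by
      calc s * (v' * u) = (s * v') * u := by ring
        _ = τ ^ 3 * v * u := by rw [e5]
        _ = s ^ 2 * v * u := by linear_combination -v * u * h0
        _ = s * (v * (s * u)) := by ring
        _ = s * (v * u') := by rw [← huu]
    refine mul_left_cancel₀ ?_ h1
    rw [hs]
    exact div_ne_zero hu0' hu0
  have hvm : v = u + 2 * m := by rw [hu, hv]; ring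
  have hvm' : v' = u' + 2 * m' := by rw [hu', hv']; ring
  have hud : u * d = 2 * (τ ^ 3 * m - s * m') := by
    rw [hvm, hvm', huu] at e5
    rw [hd]
    linear_combination e5
  have hvd : v * d = 2 * s * (s * m - m') := by
    have h1 : v * d = u * d + 2 * m * d := by rw [hvm]; ring
    rw [h1, hud, hd]
    ring
  have e6 : z ^ 3 * (s ^ 2 - τ ^ 3) ^ 2 = 4 * s * (τ ^ 3 * m - s * m') * (s * m - m') := by
    rw [← hd, ← huv]
    calc u * v * d ^ 2 = (u * d) * (v * d) := by ring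
      _ = _ := by rw [hud, hvd]; ring
  -- the fields
  obtain ⟨M, hM⟩ : ∃ M : IntermediateField ℂ K, M = ℂ⟮τ⟯ := ⟨_, rfl⟩
  have hτM : τ ∈ M := by
    rw [hM]
    exact mem_adjoin_simple_self ℂ τ
  have hLe : (M⟮s⟯).restrictScalars ℂ = adjoin ℂ {τ, s} := by
    rw [hM]
    exact adjoin_simple_adjoin_simple ℂ τ s
  have hτL : τ ∈ M⟮s⟯ := (M⟮s⟯).algebraMap_mem (⟨τ, hτM⟩ : M)
  have hsL : s ∈ M⟮s⟯ := mem_adjoin_simple_self M s
  have hcL : ∀ c : ℂ, algebraMap ℂ K c ∈ M⟮s⟯ := fun c => by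
    rw [IsScalarTower.algebraMap_apply ℂ M K]
    exact (M⟮s⟯).algebraMap_mem _
  -- `z` generates
  have hzgen : (M⟮s⟯)⟮z⟯ = ⊤ := by
    have h1 : (⊤ : IntermediateField ℂ K) ≤
        (((M⟮s⟯)⟮z⟯).restrictScalars M).restrictScalars ℂ := by
      have hin : ∀ y ∈ M⟮s⟯, y ∈ (M⟮s⟯)⟮z⟯ := fun y hy =>
        ((M⟮s⟯)⟮z⟯).algebraMap_mem (⟨y, hy⟩ : M⟮s⟯)
      have hz1 : z ∈ (M⟮s⟯)⟮z⟯ := mem_adjoin_simple_self _ z
      have hz1' : z' ∈ (M⟮s⟯)⟮z⟯ := by
        rw [hzz]
        exact mul_mem (hin _ hτL) hz1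
      have hm1 : m ∈ (M⟮s⟯)⟮z⟯ := by
        rw [hm]
        exact add_mem (mul_mem (hin _ (hcL _)) hz1) (hin _ (hcL _))
      have hm1' : m' ∈ (M⟮s⟯)⟮z⟯ := by
        rw [hm']
        exact add_mem (mul_mem (hin _ (hcL _)) hz1') (hin _ (hcL _))
      have hd1 : d ∈ (M⟮s⟯)⟮z⟯ := by
        rw [hd]
        exact hin _ (sub_mem (pow_mem hsL 2) (pow_mem hτL 3))
      have h2 : (2 : K) ∈ (M⟮s⟯)⟮z⟯ := by
        have := hin _ (hcL 2)
        rwa [map_ofNat] at this
      have hu1 : u ∈ (M⟮s⟯)⟮z⟯ := by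
        have h3 : u = 2 * (τ ^ 3 * m - s * m') / d := by
          rw [← hud, mul_div_cancel_right₀ _ hd0]
        rw [h3]
        exact div_mem (mul_mem h2 (sub_mem (mul_mem (pow_mem (hin _ hτL) 3) hm1)
          (mul_mem (hin _ hsL) hm1'))) hd1
      have hu1' : u' ∈ (M⟮s⟯)⟮z⟯ := by
        rw [huu]
        exact mul_mem (hin _ hsL) hu1
      rw [← hgen, adjoin_le_iff]
      rintro y (rfl | rfl | rfl | rfl)
      · exact hz1
      · have h3 : y = u + m := by rw [hu]; ring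
        change y ∈ (M⟮s⟯)⟮z⟯
        rw [h3]
        exact add_mem hu1 hm1
      · exact hz1'
      · have h3 : y = u' + m' := by rw [hu']; ring
        change y ∈ (M⟮s⟯)⟮z⟯
        rw [h3]
        exact add_mem hu1' hm1'
    rw [eq_top_iff]
    intro y _
    exact h1 trivial
  -- the cubic equation
  have hcub : ∃ p : (M⟮s⟯)[X], p ≠ 0 ∧ p.natDegree = 3 ∧ aeval z p = 0 := by
    obtain ⟨τ1, hτ1⟩ : ∃ τ1 : M⟮s⟯, algebraMap (M⟮s⟯) K τ1 = τ := ⟨⟨τ, hτL⟩, rfl⟩
    obtain ⟨s1, hs1⟩ : ∃ s1 : M⟮s⟯, algebraMap (M⟮s⟯) K s1 = s := ⟨⟨s, hsL⟩, rfl⟩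
    obtain ⟨a1, ha1⟩ : ∃ a1 : M⟮s⟯, algebraMap (M⟮s⟯) K a1 = algebraMap ℂ K α :=
      ⟨⟨_, hcL α⟩, rfl⟩
    obtain ⟨g1, hg1⟩ : ∃ a1 : M⟮s⟯, algebraMap (M⟮s⟯) K a1 = algebraMap ℂ K γ :=
      ⟨⟨_, hcL γ⟩, rfl⟩
    obtain ⟨a2, ha2⟩ : ∃ a1 : M⟮s⟯, algebraMap (M⟮s⟯) K a1 = algebraMap ℂ K α' :=
      ⟨⟨_, hcL α'⟩, rfl⟩
    obtain ⟨g2, hg2⟩ : ∃ a1 : M⟮s⟯, algebraMap (M⟮s⟯) K a1 = algebraMap ℂ K γ' :=
      ⟨⟨_, hcL γ'⟩, rfl⟩
    obtain ⟨p1, hp1⟩ : ∃ p1, p1 = τ1 ^ 3 * a1 - s1 * (a2 * τ1) := ⟨_, rfl⟩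
    obtain ⟨p0, hp0⟩ : ∃ p1, p1 = τ1 ^ 3 * g1 - s1 * g2 := ⟨_, rfl⟩
    obtain ⟨q1, hq1⟩ : ∃ p1, p1 = s1 * a1 - a2 * τ1 := ⟨_, rfl⟩
    obtain ⟨q0, hq0⟩ : ∃ p1, p1 = s1 * g1 - g2 := ⟨_, rfl⟩
    have hne : (s1 ^ 2 - τ1 ^ 3) ^ 2 ≠ 0 := by
      apply pow_ne_zero
      intro h0
      apply hd0
      have h9 := congrArg (algebraMap (M⟮s⟯) K) h0
      rw [map_sub, map_pow, map_pow, hτ1, hs1, map_zero] at h9
      rw [hd]
      exact h9
    refine ⟨(⟨(s1 ^ 2 - τ1 ^ 3) ^ 2, -(4 * s1 * (p1 * q1)), -(4 * s1 * (p1 * q0 + p0 * q1)),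
      -(4 * s1 * (p0 * q0))⟩ : Cubic (M⟮s⟯)).toPoly, Cubic.ne_zero_of_a_ne_zero hne,
      Cubic.natDegree_of_a_ne_zero hne, ?_⟩
    unfold Cubic.toPoly
    simp only [map_add, map_mul, map_pow, aeval_C, aeval_X, map_neg, map_sub, map_ofNat]
    rw [hp1, hp0, hq1, hq0]
    simp only [map_sub, map_mul, map_pow, hτ1, hs1, ha1, ha2, hg1, hg2]
    rw [hm, hm', hzz] at e6
    linear_combination e6
  obtain ⟨p, hp0, hpd, hpz⟩ := hcub
  have hint : IsIntegral (M⟮s⟯) z := IsAlgebraic.isIntegral ⟨p, hp0, hpz⟩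
  have hfinz : FiniteDimensional (M⟮s⟯) K := by
    have h1 := IntermediateField.adjoin.finiteDimensional hint
    rw [hzgen] at h1
    exact h1.equiv IntermediateField.topEquiv.toLinearEquiv
  have hup : Module.finrank (M⟮s⟯) K ≤ 3 := by
    rw [← IntermediateField.finrank_top', ← hzgen, IntermediateField.adjoin.finrank hint, ← hpd]
    exact Polynomial.natDegree_le_of_dvd (minpoly.dvd _ _ hpz) hp0
  -- independence
  have hτs : IsTranscendenceBasis ℂ ![τ, s] := by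
    refine indep_of_alg hn τ s fun y => ?_
    rw [← hLe]
    have h1 : IsAlgebraic (M⟮s⟯) y := Algebra.IsAlgebraic.isAlgebraic y
    exact h1
  have hsM : Transcendental M s := by
    have h3 : Transcendental (Algebra.adjoin ℂ {τ}) s := by
      have h4 := hτs.1.transcendental_adjoin (s := {0}) (i := 1) (by simp)
      have e : (![τ, s] '' {0}) = ({τ} : Set K) := by
        rw [Set.image_singleton]
        rfl
      rw [e] at h4
      exact h4
    open scoped algebraAdjoinAdjoin in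
    rw [hM]
    intro h
    exact h3 ((IsFractionRing.isAlgebraic_iff (Algebra.adjoin ℂ {τ}) ℂ⟮τ⟯ K).2 h)
  have hMc : CharZero M := charZero_of_injective_algebraMap (algebraMap ℂ M).injective
  have hFF : IsFF M K := IsFF.of_finite hsM hfinz
  obtain ⟨S, hS, hS2, hS3⟩ := zeros (k := M) (K := K) hsM
  have hlow : 3 ≤ Module.finrank (M⟮s⟯) K := by
    have hpos : 0 < Module.finrank (M⟮s⟯) K := Module.finrank_pos
    have hne : S.Nonempty := by
      rw [Finset.nonempty_iff_ne_empty]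
      intro h0
      rw [h0, Finset.sum_empty] at hS3
      omega
    obtain ⟨Q, hQ⟩ := hne
    have hτt : (⟨τ, hτM⟩ : M) ≠ 0 := by
      intro h0
      exact hτ0 (congrArg Subtype.val h0)
    have h1 : 3 ≤ Q.ord s := by
      refine ram (M := M) (P := Q) (z := z) (s := s) (τ := τ) (a := algebraMap ℂ M α)
        (g := algebraMap ℂ M γ) (a' := algebraMap ℂ M α') (g' := algebraMap ℂ M γ')
        (t := ⟨τ, hτM⟩) rfl hτt ((_root_.map_ne_zero _).2 hγ) ((_root_.map_ne_zero _).2 hγ')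
        two_ne_zero ((hS Q).1 hQ) hz0 ?_
      simp only [← IsScalarTower.algebraMap_apply ℂ M K]
      rw [hm, hm', hzz] at e6
      exact e6
    rw [← hS3]
    refine le_trans ?_ (Finset.single_le_sum (fun w _ => Nat.zero_le _) hQ)
    have h2 := hS2 Q hQ
    have h3 : 3 ≤ (Q.ord s).toNat := by omega
    nlinarith
  refine ⟨τ, s, hτs.1, ?_⟩
  rw [← hLe]
  exact le_antisymm hup hlow

end

end Pool.Agent.Helper11K9.EC
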